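import Pool.Agent.J6H26.MM.Ty

/-!
# The three ball property of the compact operators gives property (M)
-/

set_option autoImplicit false

namespace Pool.Agent.J6H26.MM

open Filter Topology Pool.Agent.N314.OP

variable {E : Type*} [NormedAddCommGroup E] [NormedSpace ℝ E]

/-- the three ball property at the identity, of the compact operators in the bounded operators -/
def TB (E : Type*) [NormedAddCommGroup E] [NormedSpace ℝ E] : Prop :=
  ∀ S : Fin 3 → (E →L[ℝ] E), (∀ i, IsCompactOperator (S i) ∧ ‖S i‖ ≤ 1) →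
    ∀ ε : ℝ, 0 < ε → ∃ K : E →L[ℝ] E, IsCompactOperator K ∧
      ∀ i, ‖ContinuousLinearMap.id ℝ E + S i - K‖ ≤ 1 + ε

/-- compact operators map weakly null sequences to null sequences -/
lemma compact_null {w : ℕ → E} (hb : Bd w) (hw : UN w) {K : E →L[ℝ] E}
    (hK : IsCompactOperator K) : Tendsto (fun n => ‖K (w n)‖) uu (𝓝 0) := by
  obtain ⟨C, hC⟩ := hb
  have hc : IsCompact (closure (K '' Metric.closedBall 0 C)) :=
    hK.isCompact_closure_image_closedBall (𝕜₁ := ℝ) (𝕜₂ := ℝ) (f := (K : E →ₗ[ℝ] E)) C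
  have h1 : ((uu.map fun n => K (w n) : Ultrafilter E) : Filter E) ≤
      𝓟 (closure (K '' Metric.closedBall 0 C)) := by
    rw [Ultrafilter.coe_map, le_principal_iff, mem_map]
    refine univ_mem' fun n => subset_closure ⟨w n, ?_, rfl⟩
    rw [mem_closedBall_zero_iff]
    exact hC n
  obtain ⟨z, -, hz⟩ := hc.ultrafilter_le_nhds _ h1
  have hz' : Tendsto (fun n => K (w n)) uu (𝓝 z) := hz
  have h0 : z = 0 := by
    by_contra hne
    obtain ⟨f, -, hf⟩ := exists_dual_vector ℝ z (norm_ne_zero_iff.2 hne)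
    have h2 : Tendsto (fun n => f (K (w n))) uu (𝓝 (f z)) := (f.continuous.tendsto z).comp hz'
    have h3 := tendsto_nhds_unique h2 ((hw.map K) f)
    rw [h3] at hf
    have : ‖z‖ = 0 := by simpa using hf.symm
    exact hne (norm_eq_zero.1 this)
  rw [h0] at hz'
  have := hz'.norm
  rwa [norm_zero] at this

/-- **Three balls give property (M) for uniformly convex spaces.** -/
theorem mu_of_tb (hc : UC E) (h3 : TB E) : MU E := by
  have key : ∀ w : ℕ → E, Bd w → UN w → ∀ u v : E, ‖u‖ = ‖v‖ → 0 < ‖v‖ →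
      ul (fun n => ‖u + w n‖) ≤ ul (fun n => ‖v + w n‖) := by
    intro w hb hw u v huv hv
    have t1 := hb.tendsto u
    have t2 := hb.tendsto v
    set Lu := ul fun n => ‖u + w n‖ with hLu
    set Lv := ul fun n => ‖v + w n‖ with hLv
    have hLv0 : 0 ≤ Lv := ge_of_tendsto' t2 fun n => norm_nonneg _
    obtain ⟨f, hf, hfv⟩ := exists_dual_vector ℝ v hv.ne'
    have hfv' : f v = ‖v‖ := by simpa using hfv
    have hrank : ∀ z : E, ‖z‖ = ‖v‖ → ∃ S : E →L[ℝ] E, IsCompactOperator S ∧ ‖S‖ ≤ 1 ∧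
        S v = z := by
      intro z hz
      refine ⟨f.smulRight (‖v‖⁻¹ • z), ?_, ?_, ?_⟩
      · have h4 : IsCompactOperator (fun x : E => f x) := by
          have h5 := isCompactOperator_id (E := ℝ)
          exact h5.comp_clm f
        exact h4.clm_comp ((ContinuousLinearMap.id ℝ ℝ).smulRight (‖v‖⁻¹ • z))
      · rw [ContinuousLinearMap.norm_smulRight_apply, hf, one_mul, norm_smul, norm_inv,
          norm_norm, hz, inv_mul_cancel₀ hv.ne']
      · rw [ContinuousLinearMap.smulRight_apply, hfv', smul_smul, mul_inv_cancel₀ hv.ne',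
          one_smul]
    refine le_of_forall_pos_le_add fun η hη => ?_
    -- uniform convexity
    obtain ⟨δ, hδ, hcv⟩ := hc (η / (4 * ‖v‖)) (by positivity)
    obtain ⟨ε, hε, hε1, hε2, hε3⟩ : ∃ ε : ℝ, 0 < ε ∧ ε ≤ 1 ∧ 2 - δ ≤ 2 / (1 + ε) ∧
        ε * Lv ≤ η / 2 := by
      refine ⟨min 1 (min (δ / 2) (η / (2 * (Lv + 1)))), by positivity, min_le_left _ _, ?_, ?_⟩
      · set ε := min 1 (min (δ / 2) (η / (2 * (Lv + 1)))) with hε
        have h4 : ε ≤ δ / 2 := (min_le_right _ _).trans (min_le_left _ _)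
        have h5 : 0 < ε := by positivity
        rw [le_div_iff₀ (by linarith)]
        nlinarith
      · set ε := min 1 (min (δ / 2) (η / (2 * (Lv + 1)))) with hε
        have h4 : ε ≤ η / (2 * (Lv + 1)) := (min_le_right _ _).trans (min_le_right _ _)
        calc ε * Lv ≤ η / (2 * (Lv + 1)) * (Lv + 1) := by gcongr; linarith
          _ = η / 2 := by field_simp
    obtain ⟨V, hV1, hV2, hV3⟩ := hrank v rfl
    obtain ⟨S, hS1, hS2, hS3⟩ := hrank u huv
    obtain ⟨K, hK, hKn⟩ := h3 ![V, -V, S] (fun i => by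
      fin_cases i
      · exact ⟨hV1, hV2⟩
      · exact ⟨hV1.neg, by show ‖-V‖ ≤ 1; rw [norm_neg]; exact hV2⟩
      · exact ⟨hS1, hS2⟩) ε hε
    have k0 : ‖ContinuousLinearMap.id ℝ E + V - K‖ ≤ 1 + ε := hKn 0
    have k1 : ‖ContinuousLinearMap.id ℝ E + -V - K‖ ≤ 1 + ε := hKn 1
    have k2 : ‖ContinuousLinearMap.id ℝ E + S - K‖ ≤ 1 + ε := hKn 2
    set z : E := v - K v with hz
    have hz1 : ‖v + z‖ ≤ (1 + ε) * ‖v‖ := by
      have e1 : v + z = (ContinuousLinearMap.id ℝ E + V - K) v := by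
        show v + z = v + V v - K v
        rw [hV3, hz]; abel
      rw [e1]
      exact (ContinuousLinearMap.id ℝ E + V - K).le_of_opNorm_le k0 v
    have hz2 : ‖v - z‖ ≤ (1 + ε) * ‖v‖ := by
      have e1 : -(v - z) = (ContinuousLinearMap.id ℝ E + -V - K) v := by
        show -(v - z) = v + -(V v) - K v
        rw [hV3, hz]; abel
      rw [← norm_neg, e1]
      exact (ContinuousLinearMap.id ℝ E + -V - K).le_of_opNorm_le k1 v
    have hq : 0 < (1 + ε) * ‖v‖ := by positivity
    have hz3 : ‖z‖ ≤ η / 4 := by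
      have h4 := hcv (((1 + ε) * ‖v‖)⁻¹ • (v + z)) (((1 + ε) * ‖v‖)⁻¹ • (v - z))
        (by rw [norm_smul, norm_inv, Real.norm_of_nonneg hq.le, inv_mul_le_iff₀ hq]; linarith)
        (by rw [norm_smul, norm_inv, Real.norm_of_nonneg hq.le, inv_mul_le_iff₀ hq]; linarith)
        (by
          have h5 : ((1 + ε) * ‖v‖)⁻¹ • (v + z) + ((1 + ε) * ‖v‖)⁻¹ • (v - z) =
              (2 * ((1 + ε) * ‖v‖)⁻¹) • v := by module
          rw [h5, norm_smul, Real.norm_of_nonneg (by positivity)]
          have h6 : 2 * ((1 + ε) * ‖v‖)⁻¹ * ‖v‖ = 2 / (1 + ε) := by field_simp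
          rw [h6]
          exact hε2)
      have h5 : ((1 + ε) * ‖v‖)⁻¹ • (v + z) - ((1 + ε) * ‖v‖)⁻¹ • (v - z) =
          (2 * ((1 + ε) * ‖v‖)⁻¹) • z := by module
      rw [h5, norm_smul, Real.norm_of_nonneg (by positivity), ← div_eq_mul_inv,
        div_mul_eq_mul_div, div_le_iff₀ hq] at h4
      have h6 : η / (4 * ‖v‖) * ((1 + ε) * ‖v‖) = η / 4 * (1 + ε) := by field_simp
      rw [h6] at h4
      nlinarith
    -- the estimate
    have t3 := (t2.const_mul (1 + ε)).add_const (η / 4)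
    have hSK : IsCompactOperator (S - K) := hS1.sub hK
    have t4 := compact_null hb hw hSK
    have t5 := t3.add t4
    rw [add_zero] at t5
    have h7 : Lu ≤ (1 + ε) * Lv + η / 4 := by
      refine le_of_tendsto_of_tendsto' t1 t5 fun n => ?_
      have e1 : u + w n = (ContinuousLinearMap.id ℝ E + S - K) (v + w n) - z - (S - K) (w n) := by
        show u + w n = v + w n + S (v + w n) - K (v + w n) - z - (S (w n) - K (w n))
        rw [map_add, map_add, hS3, hz]; abel
      rw [e1]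
      have h8 := (ContinuousLinearMap.id ℝ E + S - K).le_of_opNorm_le k2 (v + w n)
      have h9 := norm_sub_le ((ContinuousLinearMap.id ℝ E + S - K) (v + w n) - z)
        ((S - K) (w n))
      have h10 := norm_sub_le ((ContinuousLinearMap.id ℝ E + S - K) (v + w n)) z
      linarith
    linarith
  intro w hb hw u v huv
  rcases (norm_nonneg v).eq_or_lt with h0 | h0
  · have hv : v = 0 := norm_eq_zero.1 h0.symm
    have hu : u = 0 := norm_eq_zero.1 (by rw [huv]; exact h0.symm)
    rw [hu, hv]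
  · exact le_antisymm (key w hb hw u v huv h0) (key w hb hw v u huv.symm (by rwa [huv]))

end Pool.Agent.J6H26.MM
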