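import Pool.Agent.J6H26.MM.One
import Pool.Agent.J6H26.MM.MI
import Pool.Agent.J6H26.FR.Perturb

/-!
# Almost transitive spaces with separable dual and property (M)
-/

set_option autoImplicit false

namespace Pool.Agent.J6H26.MM

open Filter Topology Pool.Agent.N314.OP

variable {E : Type*} [NormedAddCommGroup E] [NormedSpace ℝ E]

/-- **Property (M) and dense orbits give the parallelogram law.** -/
theorem para_mu [CompleteSpace E] [TopologicalSpace.SeparableSpace (StrongDual ℝ E)] (hA : AT E)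
    (hM : UC E → MU E) (x y : E) :
    ‖x + y‖ * ‖x + y‖ + ‖x - y‖ * ‖x - y‖ = 2 * (‖x‖ * ‖x‖ + ‖y‖ * ‖y‖) := by
  by_cases hfin : FiniteDimensional ℝ E
  · have hG : Pool.Agent.J6H26.FR.AT (⊤ : Subgroup (E ≃ₗᵢ[ℝ] E)) := by
      intro x y hx hy ε hε
      obtain ⟨g, hg⟩ := hA x y hx hy ε hε
      exact ⟨g, trivial, hg⟩
    have := Pool.Agent.J6H26.FR.para_fin hG x y
    nlinarith [this]
  obtain ⟨hs, hc, hr⟩ := good_of_AT hA
  have hsep : TopologicalSpace.SeparableSpace E := sep_of_dual
  have hm : MU E := hM hc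
  have hU : UW E := uw_of_reflexive hr
  have hS : Sep E := sep_of_separable
  have hW : WSC E := wsc_of_uw hU hS
  obtain ⟨κ, hκ0, hκ1⟩ := exists_null hfin hW
  have hnt : Nontrivial E := by
    by_contra h
    rw [not_nontrivial_iff_subsingleton] at h
    exact hfin inferInstance
  obtain ⟨e, he⟩ := exists_norm_eq E (zero_le_one (α := ℝ))
  have hκ : Nz e κ := by
    refine ⟨⟨1, fun n => (hκ1 n).le⟩, fun f => (hκ0 f).mono_left uu_le, ?_⟩
    refine ul_eq (tendsto_const_nhds.congr fun n => ?_)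
    rw [zero_smul, zero_add, hκ1]
  by_cases hd : Dif e
  · exact para_two hA hU hm hc hs he hκ hd x y
  · exact para_one hA hW hS hfin hm hc he hκ hd x y

end Pool.Agent.J6H26.MM
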