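import Pool.Agent.J6H26.MM.Two

/-!
# The symmetric duality map
-/

set_option autoImplicit false
set_option linter.unusedVariables false
set_option linter.unusedSectionVars false

namespace Pool.Agent.J6H26.MM

open Filter Topology Pool.Agent.N314.OP

variable {E : Type*} [NormedAddCommGroup E] [NormedSpace ℝ E]

section

variable {e : E} {k : ℕ → E ≃ₗᵢ[ℝ] E} {r r' : ℝ}

lemma ev_t (hm : MU E) (he : ‖e‖ = 1) {w : ℕ → E} (hb : Bd w) (hw : UN w) (v : E) {L : ℝ}
    (h : Tendsto (fun n => ‖v + w n‖) uu (𝓝 L)) : Tendsto (fun n => ‖v - w n‖) uu (𝓝 L) := by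
  have h1 := nf_t hm he hb hw v
  have h2 := nf_t hm he hb.neg hw.neg v
  rw [nf_negw hm he hb hw, ← tendsto_nhds_unique h h1] at h2
  refine h2.congr fun n => ?_
  rw [sub_eq_add_neg]

/-- **The planar norms.** -/
lemma plane (hm : MU E) (he : ‖e‖ = 1)
    (h : Pr k (r • ContinuousLinearMap.id ℝ E) (r' • ContinuousLinearMap.id ℝ E)) (hr : 0 < r)
    (hr' : 0 < r') (h1 : r * r' < 1) {u : E} (hu : ‖u‖ = 1) {A : ℝ} (hA : 0 ≤ A) :
    (1 - r * r') * r ≤ r' ∧ (1 - r * r') * r' ≤ r ∧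
    (1 - r * r') * NN e k (r • ContinuousLinearMap.id ℝ E) u A ^ 2 ≤ A ^ 2 + 1 ∧
    (1 - r * r') ^ 3 * (A ^ 2 + 1) ≤ NN e k (r • ContinuousLinearMap.id ℝ E) u A ^ 2 := by
  obtain ⟨Q, hQ⟩ : ∃ Q : ℝ → ℝ → ℝ, ∀ a b, Q a b = ul fun n => ‖a • u + b • k n u‖ :=
    ⟨_, fun _ _ => rfl⟩
  have hQt : ∀ a b, Tendsto (fun n => ‖a • u + b • k n u‖) uu (𝓝 (Q a b)) := by
    intro a b
    rw [hQ]
    refine ul_spec (C := |a| + |b|) fun n => ?_
    rw [abs_norm]
    refine (norm_add_le _ _).trans ?_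
    rw [norm_smul, norm_smul, (k n).norm_map, hu, mul_one, mul_one, Real.norm_eq_abs,
      Real.norm_eq_abs]
  have hsub : ∀ x y x' y', Q (x + x') (y + y') ≤ Q x y + Q x' y' := by
    intro x y x' y'
    refine le_of_tendsto_of_tendsto' (hQt _ _) ((hQt x y).add (hQt x' y')) fun n => ?_
    have : (x + x') • u + (y + y') • k n u = (x • u + y • k n u) + (x' • u + y' • k n u) := by
      module
    rw [this]
    exact norm_add_le _ _
  have hhom : ∀ c x y, Q (c * x) (c * y) = |c| * Q x y := by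
    intro c x y
    refine tendsto_nhds_unique (hQt _ _) (((hQt x y).const_mul |c|).congr fun n => ?_)
    have : (c * x) • u + (c * y) • k n u = c • (x • u + y • k n u) := by module
    rw [this, norm_smul, Real.norm_eq_abs]
  have hs1 : ∀ a b, Q (a + 2 * r * b) (-b) = Q a b := by
    intro a b
    have hw := (h.l u).smul b
    have hb := (h.bd u).smul b
    have h2 : Tendsto (fun n => ‖(a + r * b) • u +
        b • (k n u - (r • ContinuousLinearMap.id ℝ E) u)‖) uu (𝓝 (Q a b)) := by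
      refine (hQt a b).congr fun n => ?_
      congr 1
      show a • u + b • k n u = (a + r * b) • u + b • (k n u - r • u)
      module
    have h3 := ev_t hm he hb hw _ h2
    refine tendsto_nhds_unique (hQt _ _) (h3.congr fun n => ?_)
    congr 1
    show (a + r * b) • u - b • (k n u - r • u) = (a + 2 * r * b) • u + (-b) • k n u
    module
  have hs2 : ∀ a b, Q (-a) (b + 2 * r' * a) = Q a b := by
    intro a b
    have hw := (h.l' u).smul a
    have hb := (h.symm.bd u).smul a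
    have h2 : Tendsto (fun n => ‖(b + r' * a) • u +
        a • ((k n).symm u - (r' • ContinuousLinearMap.id ℝ E) u)‖) uu (𝓝 (Q a b)) := by
      refine (hQt a b).congr fun n => ?_
      rw [← (k n).symm.norm_map]
      congr 1
      rw [map_add, map_smul, map_smul, (k n).symm_apply_apply]
      show a • (k n).symm u + b • u = (b + r' * a) • u + a • ((k n).symm u - r' • u)
      module
    have h3 := ev_t hm he hb hw _ h2
    refine tendsto_nhds_unique (hQt _ _) (h3.congr fun n => ?_)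
    rw [← (k n).norm_map]
    congr 1
    show k n ((b + r' * a) • u - a • ((k n).symm u - r' • u)) =
      (-a) • u + (b + 2 * r' * a) • k n u
    rw [map_sub, map_smul, map_smul, map_sub, map_smul, (k n).apply_symm_apply]
    module
  have hQ10 : Q 1 0 = 1 := by
    refine tendsto_nhds_unique (hQt 1 0) (tendsto_const_nhds.congr fun n => ?_)
    rw [zero_smul, add_zero, one_smul, hu]
  have hQ01 : Q 0 1 = 1 := by
    refine tendsto_nhds_unique (hQt 0 1) (tendsto_const_nhds.congr fun n => ?_)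
    rw [zero_smul, zero_add, one_smul, (k n).norm_map, hu]
  have hQA : Q (A - r) 1 = NN e k (r • ContinuousLinearMap.id ℝ E) u A := by
    have h2 := nn_t hm he h u ((A - r) • u)
    have h3 : (A - r) • u + (r • ContinuousLinearMap.id ℝ E) u = A • u := by
      show (A - r) • u + r • u = A • u
      module
    rw [h3, norm_smul, hu, mul_one, Real.norm_of_nonneg hA] at h2
    refine tendsto_nhds_unique ((hQt _ _).congr fun n => ?_) h2
    rw [one_smul]
  have T := two_refl hsub hhom hr hr' h1 hs1 hs2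
  have hρ : 0 < r * r' := by positivity
  have e1 := T 1 0 0 1
  have e2 := T 0 1 1 0
  have e3 := T (A - r) 1 1 0
  have e4 := T 1 0 (A - r) 1
  rw [hQ10, hQ01] at e1 e2
  rw [hQ10, hQA] at e3 e4
  set N := NN e k (r • ContinuousLinearMap.id ℝ E) u A with hN
  have f1 : (1 - r * r') * r ≤ r' := by linarith
  have f2 : (1 - r * r') * r' ≤ r := by linarith
  refine ⟨f1, f2, ?_, ?_⟩
  · have g1 : r' * ((1 - r * r') * N ^ 2) ≤ r' * (A ^ 2 + 1) := by linarith
    exact le_of_mul_le_mul_left g1 hr'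
  · have g1 : (1 - r * r') * (r' * A ^ 2 + r * (1 - r * r')) ≤ r' * N ^ 2 := by linarith
    have g2 : (1 - r * r') * ((1 - r * r') * ((1 - r * r') * r')) ≤
        (1 - r * r') * ((1 - r * r') * r) := by
      have : 0 ≤ 1 - r * r' := by linarith
      gcongr
    have g3 : (1 - r * r') ^ 3 * A ^ 2 ≤ (1 - r * r') * A ^ 2 := by
      have h0 : 0 ≤ 1 - r * r' := by linarith
      have h2 : (1 - r * r') ^ 3 ≤ (1 - r * r') ^ 1 :=
        pow_le_pow_of_le_one h0 (by linarith) (by norm_num)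
      rw [pow_one] at h2
      gcongr
    have g4 : r' * ((1 - r * r') ^ 3 * A ^ 2) ≤ r' * ((1 - r * r') * A ^ 2) := by gcongr
    have g5 : r' * ((1 - r * r') ^ 3 * (A ^ 2 + 1)) ≤ r' * N ^ 2 := by linarith
    exact le_of_mul_le_mul_left g5 hr'

/-- **Almost symmetry.** -/
lemma almost (hm : MU E) (he : ‖e‖ = 1)
    (h : Pr k (r • ContinuousLinearMap.id ℝ E) (r' • ContinuousLinearMap.id ℝ E)) (hr : 0 < r)
    (hr' : 0 < r') (h1 : r ≤ 1 / 4) {u z : E} (hu : ‖u‖ = 1) (hz : ‖z‖ = 1) :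
    |‖z + r • u‖ ^ 2 - ‖u + r • z‖ ^ 2| ≤ 20 * r ^ 2 := by
  have hr'1 : r' ≤ 1 := by
    have := h.n' e
    have h2 : ‖r' • e‖ ≤ ‖e‖ := this
    rwa [norm_smul, he, mul_one, Real.norm_of_nonneg hr'.le] at h2
  have hρ : 0 < r * r' := by positivity
  have hρ1 : r * r' ≤ 1 / 4 := by nlinarith
  have hN := g1 hm he h u z
  have e1 : z + (r • ContinuousLinearMap.id ℝ E) u = z + r • u := rfl
  have e2 : u + (r' • ContinuousLinearMap.id ℝ E) z = u + r' • z := rfl
  rw [e1, e2] at hN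
  obtain ⟨a1, a2, a3, a4⟩ := plane hm he h hr hr' (by linarith) hu (norm_nonneg (z + r • u))
  obtain ⟨-, -, b3, b4⟩ := plane hm he h.symm hr' hr (by linarith) hz (norm_nonneg (u + r' • z))
  rw [← hN, mul_comm r' r] at b3 b4
  set N := NN e k (r • ContinuousLinearMap.id ℝ E) u ‖z + r • u‖ with hNdef
  set P := ‖z + r • u‖ with hP
  set S := ‖u + r' • z‖ with hS
  set S0 := ‖u + r • z‖ with hS0
  have hP1 : P ≤ 5 / 4 := by
    have := norm_add_le z (r • u)
    rw [norm_smul, hz, hu, mul_one, Real.norm_of_nonneg hr.le] at this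
    linarith
  have hr'2 : r' ≤ 4 / 3 * r := by nlinarith
  have hρ2 : r * r' ≤ 4 / 3 * r ^ 2 := by nlinarith
  have hS1 : S ≤ 4 / 3 := by
    have := norm_add_le u (r' • z)
    rw [norm_smul, hz, hu, mul_one, Real.norm_of_nonneg hr'.le] at this
    linarith
  have hS2 : S0 ≤ 5 / 4 := by
    have := norm_add_le u (r • z)
    rw [norm_smul, hz, hu, mul_one, Real.norm_of_nonneg hr.le] at this
    linarith
  have hP0 : 0 ≤ P := norm_nonneg _
  have hS00 : 0 ≤ S := norm_nonneg _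
  have hS000 : 0 ≤ S0 := norm_nonneg _
  have hrr : |r' - r| ≤ r * r' := by
    rw [abs_le]
    constructor <;> nlinarith
  have hSS : |S - S0| ≤ r * r' := by
    refine le_trans (abs_norm_sub_norm_le _ _) ?_
    have : u + r' • z - (u + r • z) = (r' - r) • z := by module
    rw [this, norm_smul, hz, mul_one, Real.norm_eq_abs]
    exact hrr
  have hbern : 1 - 4 * (r * r') ≤ (1 - r * r') ^ 4 := by
    have := one_add_mul_le_pow (show (-2 : ℝ) ≤ -(r * r') by linarith) 4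
    have h3 : (1 + ((4 : ℕ) : ℝ) * -(r * r')) = 1 - 4 * (r * r') := by push_cast; ring
    rw [h3] at this
    exact this.trans (le_of_eq (by ring))
  have hq0 : 0 ≤ 1 - r * r' := by linarith
  have c1 : (1 - r * r') ^ 4 * (P ^ 2 + 1) ≤ S ^ 2 + 1 := by
    have h2 := mul_le_mul_of_nonneg_left a4 hq0
    have h3 : (1 - r * r') * ((1 - r * r') ^ 3 * (P ^ 2 + 1)) =
        (1 - r * r') ^ 4 * (P ^ 2 + 1) := by ring
    linarith
  have c2 : (1 - r * r') ^ 4 * (S ^ 2 + 1) ≤ P ^ 2 + 1 := by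
    have h2 := mul_le_mul_of_nonneg_left b4 hq0
    have h3 : (1 - r * r') * ((1 - r * r') ^ 3 * (S ^ 2 + 1)) =
        (1 - r * r') ^ 4 * (S ^ 2 + 1) := by ring
    linarith
  have c3 : (1 - 4 * (r * r')) * (P ^ 2 + 1) ≤ (1 - r * r') ^ 4 * (P ^ 2 + 1) := by gcongr
  have c4 : (1 - 4 * (r * r')) * (S ^ 2 + 1) ≤ (1 - r * r') ^ 4 * (S ^ 2 + 1) := by gcongr
  have d1 : P ^ 2 + 1 ≤ 3 := by
    have d0 : P ^ 2 ≤ (5 / 4) ^ 2 := pow_le_pow_left₀ hP0 hP1 2
    norm_num at d0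
    linarith
  have d2 : S ^ 2 + 1 ≤ 3 := by
    have d0 : S ^ 2 ≤ (4 / 3) ^ 2 := pow_le_pow_left₀ hS00 hS1 2
    norm_num at d0
    linarith
  have d3 : r * r' * (P ^ 2 + 1) ≤ r * r' * 3 := by gcongr
  have d4 : r * r' * (S ^ 2 + 1) ≤ r * r' * 3 := by gcongr
  have c5 : (1 - 4 * (r * r')) * (P ^ 2 + 1) ≤ S ^ 2 + 1 := c3.trans c1
  have c6 : (1 - 4 * (r * r')) * (S ^ 2 + 1) ≤ P ^ 2 + 1 := c4.trans c2
  clear c1 c2 c3 c4 a3 a4 b3 b4 hbern
  have c7 : (1 - 4 * (r * r')) * (P ^ 2 + 1) = P ^ 2 + 1 - 4 * (r * r' * (P ^ 2 + 1)) := by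
    ring
  have c8 : (1 - 4 * (r * r')) * (S ^ 2 + 1) = S ^ 2 + 1 - 4 * (r * r' * (S ^ 2 + 1)) := by
    ring
  have k1 : |P ^ 2 - S ^ 2| ≤ 16 * r ^ 2 := by
    rw [abs_le]
    constructor <;> linarith
  have k2 : |S ^ 2 - S0 ^ 2| ≤ 4 * r ^ 2 := by
    have : S ^ 2 - S0 ^ 2 = (S - S0) * (S + S0) := by ring
    rw [this, abs_mul, abs_of_nonneg (by linarith : 0 ≤ S + S0)]
    calc |S - S0| * (S + S0) ≤ (r * r') * 3 := by
          gcongr
          linarith
      _ ≤ 4 * r ^ 2 := by linarith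
  have : P ^ 2 - S0 ^ 2 = (P ^ 2 - S ^ 2) + (S ^ 2 - S0 ^ 2) := by ring
  rw [this]
  exact (abs_add_le _ _).trans (by linarith)

end

/-- **Symmetry of the duality map.** -/
lemma dual_sym (hs : US E) (hex : ∀ r : ℝ, 0 < r → r ≤ 1 / 4 → ∀ u z : E, ‖u‖ = 1 → ‖z‖ = 1 →
    |‖z + r • u‖ ^ 2 - ‖u + r • z‖ ^ 2| ≤ 20 * r ^ 2) {z u : E} (hz : ‖z‖ = 1) (hu : ‖u‖ = 1)
    {f g : StrongDual ℝ E} (hf : ‖f‖ ≤ 1) (hg : ‖g‖ ≤ 1) (hfz : f z = 1) (hgu : g u = 1) :
    f u ≤ g z := by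
  refine le_of_forall_pos_le_add fun ε hε => ?_
  obtain ⟨δ, hδ, h1⟩ := hs (ε / 2) (by positivity)
  obtain ⟨r, hr, hr1, hr2, hr3⟩ : ∃ r : ℝ, 0 < r ∧ r ≤ δ ∧ r ≤ 1 / 4 ∧ r ≤ ε / 40 :=
    ⟨min δ (min (1 / 4) (ε / 40)), by positivity, min_le_left _ _,
      (min_le_right _ _).trans (min_le_left _ _), (min_le_right _ _).trans (min_le_right _ _)⟩
  have h2 := hex r hr hr2 u z hu hz
  have h3 := h1 u (r • z) hu (by rw [norm_smul, hz, mul_one, Real.norm_of_nonneg hr.le]; exact hr1)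
  rw [norm_smul, hz, mul_one, Real.norm_of_nonneg hr.le] at h3
  have h4 : f (z + r • u) ≤ ‖z + r • u‖ := by
    have := f.le_of_opNorm_le hf (z + r • u)
    rw [one_mul] at this
    exact (le_abs_self _).trans this
  have h5 : g (u - r • z) ≤ ‖u - r • z‖ := by
    have := g.le_of_opNorm_le hg (u - r • z)
    rw [one_mul] at this
    exact (le_abs_self _).trans this
  rw [map_add, map_smul, hfz, smul_eq_mul] at h4
  rw [map_sub, map_smul, hgu, smul_eq_mul] at h5
  have h6 : 1 - r ≤ ‖z + r • u‖ := by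
    have := norm_sub_norm_le z (-(r • u))
    rw [sub_neg_eq_add, norm_neg, norm_smul, hu, hz, mul_one, Real.norm_of_nonneg hr.le] at this
    exact this
  have h7 : 1 - r ≤ ‖u + r • z‖ := by
    have := norm_sub_norm_le u (-(r • z))
    rw [sub_neg_eq_add, norm_neg, norm_smul, hu, hz, mul_one, Real.norm_of_nonneg hr.le] at this
    exact this
  set P := ‖z + r • u‖
  set S := ‖u + r • z‖
  have h8 : P - S ≤ 20 * r ^ 2 := by
    rcases le_total P S with h9 | h9
    · have := sq_nonneg r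
      linarith
    · have h10 := (abs_le.1 h2).2
      nlinarith
  have h9 : r * f u ≤ r * (g z + ε) := by
    nlinarith
  exact le_of_mul_le_mul_left h9 hr

/-- **The parallelogram law from the symmetry of the duality map.** -/
theorem para_of_sym (h : ∀ (z u : E) (f g : StrongDual ℝ E), ‖z‖ = 1 → ‖u‖ = 1 → ‖f‖ ≤ 1 →
    ‖g‖ ≤ 1 → f z = 1 → g u = 1 → f u ≤ g z) (x y : E) :
    ‖x + y‖ * ‖x + y‖ + ‖x - y‖ * ‖x - y‖ = 2 * (‖x‖ * ‖x‖ + ‖y‖ * ‖y‖) := by
  choose φ hφ1 hφ2 using fun x : E => exists_dual_vector'' ℝ x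
  have hφ2' : ∀ x, φ x x = ‖x‖ := fun x => by simpa using hφ2 x
  obtain ⟨B, hB⟩ : ∃ B : E → E → ℝ, ∀ x y, B x y = ‖x‖ * φ x y := ⟨_, fun _ _ => rfl⟩
  have hle : ∀ x y, B x y ≤ B y x := by
    intro x y
    rw [hB, hB]
    rcases eq_or_ne x 0 with rfl | hx
    · simp
    rcases eq_or_ne y 0 with rfl | hy
    · simp
    have hx0 : 0 < ‖x‖ := norm_pos_iff.2 hx
    have hy0 : 0 < ‖y‖ := norm_pos_iff.2 hy
    have h1 := h (‖x‖⁻¹ • x) (‖y‖⁻¹ • y) (φ x) (φ y)
      (by rw [norm_smul, norm_inv, norm_norm, inv_mul_cancel₀ hx0.ne'])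
      (by rw [norm_smul, norm_inv, norm_norm, inv_mul_cancel₀ hy0.ne']) (hφ1 x) (hφ1 y)
      (by rw [map_smul, hφ2', smul_eq_mul, inv_mul_cancel₀ hx0.ne'])
      (by rw [map_smul, hφ2', smul_eq_mul, inv_mul_cancel₀ hy0.ne'])
    rw [map_smul, map_smul, smul_eq_mul, smul_eq_mul, inv_mul_le_iff₀ hy0] at h1
    have h2 := mul_le_mul_of_nonneg_left h1 hx0.le
    have h3 : ‖x‖ * (‖y‖ * (‖x‖⁻¹ * φ y x)) = ‖y‖ * φ y x := by field_simp
    rwa [h3] at h2
  have hsym : ∀ x y, B x y = B y x := fun x y => le_antisymm (hle x y) (hle y x)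
  have hadd : ∀ x y z, B x (y + z) = B x y + B x z := by
    intro x y z
    rw [hB, hB, hB, map_add]; ring
  have hneg : ∀ x y, B x (-y) = - B x y := by
    intro x y
    rw [hB, hB, map_neg]; ring
  have hself : ∀ x, B x x = ‖x‖ * ‖x‖ := fun x => by rw [hB, hφ2']
  have h1 : B (x + y) (x + y) = B x x + B x y + (B y x + B y y) := by
    rw [hadd, hsym (x + y) x, hsym (x + y) y, hadd, hadd]
  have h2 : B (x + -y) (x + -y) = B x x - B x y - (B y x - B y y) := by
    rw [hadd, hsym (x + -y) x, hsym (x + -y) (-y), hadd, hadd, hneg, hneg, hsym (-y) x, hneg,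
      hsym (-y) y, hneg]
    rw [hsym y x]; ring
  rw [hself, hself, hself] at h1
  rw [hself, hself, hself, ← sub_eq_add_neg] at h2
  rw [h1, h2]
  ring

/-- **Two different limit functions.** -/
theorem para_two (hA : AT E) (hU : UW E) (hm : MU E) (hc : UC E) (hs : US E) {e : E}
    (he : ‖e‖ = 1) {κ : ℕ → E} (hκ : Nz e κ) (hd : Dif e) (x y : E) :
    ‖x + y‖ * ‖x + y‖ + ‖x - y‖ * ‖x - y‖ = 2 * (‖x‖ * ‖x‖ + ‖y‖ * ‖y‖) := by
  refine para_of_sym (fun z u f g hz hu hf hg hfz hgu => ?_) x y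
  refine dual_sym hs (fun r hr hr1 u z hu hz => ?_) hz hu hf hg hfz hgu
  obtain ⟨k, r', hr', hk⟩ := exists_sc hA hU hm hc hs he hκ hd hr (by linarith)
  exact almost hm he hk hr hr' hr1 hu hz

end Pool.Agent.J6H26.MM
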