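import Pool.Agent.J6H26.MM.Flat
import Pool.Agent.N314.OP.Fin

/-!
# A single limit function

If all the normalized weakly null sequences have the same limit function, this function is
`a ↦ (1 + a ^ p) ^ (1 / p)`.
-/

set_option autoImplicit false
set_option linter.unusedVariables false
set_option linter.unusedSectionVars false

namespace Pool.Agent.J6H26.MM

open Filter Topology Pool.Agent.N314.OP

/-- a multiplicative nondecreasing sequence is a power -/
theorem mult_mono {c : ℕ → ℝ} (hmul : ∀ n m, c (n * m) = c n * c m)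
    (hmono : ∀ n, c n ≤ c (n + 1)) (h1 : c 1 = 1) (h2 : 1 < c 2) {n : ℕ} (hn : 1 ≤ n) :
    c n = (n : ℝ) ^ (Real.log (c 2) / Real.log 2) := by
  have hm : Monotone c := monotone_nat_of_le_succ hmono
  have hpow : ∀ (n k : ℕ), c (n ^ k) = c n ^ k := by
    intro n k
    induction k with
    | zero => rw [pow_zero, pow_zero, h1]
    | succ k ih => rw [pow_succ, pow_succ, hmul, ih]
  have hcn : 1 ≤ c n := by rw [← h1]; exact hm hn
  have hL : 0 < Real.log (c 2) := Real.log_pos h2
  have hl : 0 < Real.log 2 := Real.log_pos (by norm_num)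
  have hn0 : (0 : ℝ) < n := by exact_mod_cast hn
  have key : ∀ k : ℕ, |(k : ℝ) * (Real.log (c n) * Real.log 2 - Real.log n * Real.log (c 2))| ≤
      Real.log (c 2) * Real.log 2 := by
    intro k
    set j := Nat.log 2 (n ^ k) with hj
    have e1 : 2 ^ j ≤ n ^ k := Nat.pow_log_le_self 2 (by positivity)
    have e2 : n ^ k < 2 ^ (j + 1) := Nat.lt_pow_succ_log_self (by norm_num) _
    have e3 : c 2 ^ j ≤ c n ^ k := by rw [← hpow, ← hpow]; exact hm e1
    have e4 : c n ^ k ≤ c 2 ^ (j + 1) := by rw [← hpow, ← hpow]; exact hm e2.le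
    have f1 : (j : ℝ) * Real.log (c 2) ≤ k * Real.log (c n) := by
      rw [← Real.log_pow, ← Real.log_pow]
      exact Real.log_le_log (by positivity) e3
    have f2 : (k : ℝ) * Real.log (c n) ≤ (j + 1) * Real.log (c 2) := by
      have := Real.log_le_log (by positivity) e4
      rw [Real.log_pow, Real.log_pow] at this
      push_cast at this
      exact this
    have f3 : (j : ℝ) * Real.log 2 ≤ k * Real.log n := by
      rw [← Real.log_pow, ← Real.log_pow]
      exact Real.log_le_log (by positivity) (by exact_mod_cast e1)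
    have f4 : (k : ℝ) * Real.log n ≤ (j + 1) * Real.log 2 := by
      have := Real.log_le_log (by positivity) (show ((n : ℝ)) ^ k ≤ (2 : ℝ) ^ (j + 1) by
        exact_mod_cast e2.le)
      rw [Real.log_pow, Real.log_pow] at this
      push_cast at this
      exact this
    rw [abs_le]
    constructor <;> nlinarith
  have hD : Real.log (c n) * Real.log 2 - Real.log n * Real.log (c 2) = 0 := by
    by_contra hne
    have hpos : 0 < |Real.log (c n) * Real.log 2 - Real.log n * Real.log (c 2)| :=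
      abs_pos.2 hne
    obtain ⟨k, hk⟩ := exists_nat_gt (Real.log (c 2) * Real.log 2 /
      |Real.log (c n) * Real.log 2 - Real.log n * Real.log (c 2)|)
    rw [div_lt_iff₀ hpos] at hk
    have := key k
    rw [abs_mul, Nat.abs_cast] at this
    linarith
  have h3 : Real.log (c n) = Real.log n * (Real.log (c 2) / Real.log 2) := by
    field_simp
    linarith
  rw [Real.rpow_def_of_pos hn0, ← h3, Real.exp_log (by linarith)]

/-- **The power law.** -/
theorem power_law {F : ℝ → ℝ → ℝ} (hass : ∀ r s t, 0 ≤ r → 0 < s → 0 < t →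
    F (F r s) t = F r (F s t)) (hsm : ∀ r t s, 0 ≤ r → 0 < t → 0 < s →
    F (s * r) (s * t) = s * F r t) (hz : ∀ t, 0 < t → F 0 t = t)
    (hge : ∀ r t, 0 ≤ r → 0 < t → r ≤ F r t ∧ t - r ≤ F r t) (h11 : 1 < F 1 1)
    (h12 : F 1 1 ≤ 2) (hcont : Continuous fun r => F r 1) :
    ∃ α : ℝ, 0 < α ∧ α ≤ 1 ∧ ∀ s : ℝ, 0 ≤ s → F (s ^ α) 1 = (1 + s) ^ α := by
  obtain ⟨c, hc0, hcs⟩ : ∃ c : ℕ → ℝ, c 0 = 0 ∧ ∀ n, c (n + 1) = F (c n) 1 :=
    ⟨fun n => Nat.rec 0 (fun _ x => F x 1) n, rfl, fun _ => rfl⟩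
  have hc1 : c 1 = 1 := by rw [hcs 0, hc0, hz 1 one_pos]
  have hnn : ∀ n, 0 ≤ c n := by
    intro n
    induction n with
    | zero => rw [hc0]
    | succ n ih => rw [hcs]; exact ih.trans (hge _ _ ih one_pos).1
  have hmono : ∀ n, c n ≤ c (n + 1) := by
    intro n
    rw [hcs]; exact (hge _ _ (hnn n) one_pos).1
  have hM : Monotone c := monotone_nat_of_le_succ hmono
  have hpos : ∀ n, 0 < c (n + 1) := fun n => by
    have : c 1 ≤ c (n + 1) := hM (by omega)
    rw [hc1] at this; linarith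
  have hadd : ∀ n m, F (c n) (c (m + 1)) = c (n + (m + 1)) := by
    intro n m
    induction m with
    | zero => rw [zero_add, hc1, hcs]
    | succ m ih =>
      rw [hcs (m + 1), ← hass _ _ _ (hnn n) (hpos m) one_pos, ih]
      rw [← hcs]; rfl
  have hmul : ∀ n m, c (n * m) = c n * c m := by
    intro n m
    rcases n with _ | n
    · rw [zero_mul, hc0, zero_mul]
    induction m with
    | zero => rw [mul_zero, hc0, mul_zero]
    | succ m ih =>
      have e1 : (n + 1) * (m + 1) = (n + 1) * m + (n + 1) := by ring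
      rw [e1, ← hadd, ih]
      have := hsm (c m) 1 (c (n + 1)) (hnn m) one_pos (hpos n)
      rw [mul_one] at this
      rw [this, hcs m]
  have hc2 : c 2 = F 1 1 := by rw [hcs 1, hc1]
  have hp := fun {n : ℕ} => mult_mono hmul hmono hc1 (by rw [hc2]; exact h11) (n := n)
  rw [hc2] at hp
  set α : ℝ := Real.log (F 1 1) / Real.log 2 with hα
  have hl : 0 < Real.log 2 := Real.log_pos (by norm_num)
  have hα0 : 0 < α := div_pos (Real.log_pos h11) hl
  have hα1 : α ≤ 1 := by
    rw [hα, div_le_one hl]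
    exact Real.log_le_log (by linarith) h12
  have hp' : ∀ n : ℕ, c n = (n : ℝ) ^ α := by
    intro n
    rcases n with _ | n
    · rw [hc0, Nat.cast_zero, Real.zero_rpow hα0.ne']
    · exact hp (by omega)
  have hq : ∀ n m : ℕ, F (((n : ℝ) / ((m + 1 : ℕ) : ℝ)) ^ α) 1 =
      (1 + (n : ℝ) / ((m + 1 : ℕ) : ℝ)) ^ α := by
    intro n m
    have hm0 : (0 : ℝ) < ((m + 1 : ℕ) : ℝ) := by positivity
    have e1 : F (c n / c (m + 1)) 1 = c (n + (m + 1)) / c (m + 1) := by
      have := hsm (c n) (c (m + 1)) (c (m + 1))⁻¹ (hnn n) (hpos m) (inv_pos.2 (hpos m))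
      rw [inv_mul_cancel₀ (hpos m).ne', hadd] at this
      rw [div_eq_inv_mul, this, div_eq_inv_mul]
    rw [hp' n, hp' (m + 1), hp' (n + (m + 1)), ← Real.div_rpow (by positivity) hm0.le,
      ← Real.div_rpow (by positivity) hm0.le] at e1
    rw [e1]
    congr 1
    push_cast
    push_cast at hm0
    field_simp
    ring
  refine ⟨α, hα0, hα1, fun s hs => ?_⟩
  have hfun : (fun s : ℝ => F (|s| ^ α) 1) = fun s : ℝ => (1 + |s|) ^ α := by
    refine DenseRange.equalizer (Rat.denseRange_cast (𝕜 := ℝ)) ?_ ?_ ?_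
    · exact hcont.comp (continuous_abs.rpow_const fun _ => Or.inr hα0.le)
    · exact (continuous_const.add continuous_abs).rpow_const fun _ => Or.inr hα0.le
    · funext q
      show F (|(q : ℝ)| ^ α) 1 = (1 + |(q : ℝ)|) ^ α
      obtain ⟨m, hm⟩ : ∃ m, q.den = m + 1 := Nat.exists_eq_succ_of_ne_zero q.den_nz
      have e1 : |(q : ℝ)| = (q.num.natAbs : ℝ) / ((m + 1 : ℕ) : ℝ) := by
        rw [← hm]
        conv_lhs => rw [← Rat.num_div_den q]
        push_cast
        rw [abs_div, Nat.abs_cast]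
        congr 1
        rw [← Int.cast_abs, Int.abs_eq_natAbs, Int.cast_natCast]
      rw [e1]
      exact hq _ _
  have := congrFun hfun s
  simp only [abs_of_nonneg hs] at this
  exact this

variable {E : Type*} [NormedAddCommGroup E] [NormedSpace ℝ E]

/-- **A single limit function.** -/
theorem para_one [CompleteSpace E] [TopologicalSpace.SeparableSpace E] (hA : AT E) (hW : WSC E)
    (hS : Sep E) (hinf : ¬ FiniteDimensional ℝ E) (hm : MU E) (hc : UC E) {e : E}
    (he : ‖e‖ = 1) {κ : ℕ → E} (hκ : Nz e κ) (hd : ¬ Dif e) (x y : E) :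
    ‖x + y‖ * ‖x + y‖ + ‖x - y‖ * ‖x - y‖ = 2 * (‖x‖ * ‖x‖ + ‖y‖ * ‖y‖) := by
  have hnt : Nontrivial E := ⟨e, 0, fun h => by
    rw [h, norm_zero] at he
    exact zero_ne_one he⟩
  have hsame : ∀ κ' : ℕ → E, Nz e κ' → ∀ a : ℝ, 0 ≤ a → Nf e κ' a = Nf e κ a := by
    intro κ' h1 a ha
    by_contra hne
    exact hd ⟨κ', κ, a, h1, hκ, ha, hne⟩
  obtain ⟨F, hF⟩ : ∃ F : ℝ → ℝ → ℝ, ∀ r t, F r t = Nf e (fun n => t • κ n) r :=
    ⟨_, fun _ _ => rfl⟩
  have hF1 : ∀ r, F r 1 = Nf e κ r := by
    intro r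
    rw [hF]
    congr 1
    funext n
    rw [one_smul]
  have hlim : ∀ (x : E) (t l : ℝ), Lim x t l → l = F ‖x‖ t := by
    rintro x t l ⟨y, hy0, hy1, hy2⟩
    have hb : Bd y := by
      obtain ⟨C, hC⟩ := bdd_of_tendsto hy1
      exact ⟨C, fun n => by have := hC n; rwa [abs_norm] at this⟩
    have hw : UN y := fun f => (hy0 f).mono_left uu_le
    have h1 := nf_t hm he hb hw x
    have h2 : l = Nf e y ‖x‖ := tendsto_nhds_unique (hy2.mono_left uu_le) h1
    have h3 : Nf e y 0 = t := by
      refine ul_eq ((hy1.mono_left uu_le).congr fun n => ?_)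
      rw [zero_smul, zero_add]
    have ht : 0 ≤ t := ge_of_tendsto' hy1 fun n => norm_nonneg _
    rcases ht.eq_or_lt with h0 | h0
    · rw [hF, ← h0, nf_zs he, abs_norm]
      have h4 : Tendsto y atTop (𝓝 0) := by
        rw [← h0] at hy1
        exact tendsto_zero_iff_norm_tendsto_zero.2 hy1
      have h5 := (h4.const_add x).norm
      rw [add_zero] at h5
      exact tendsto_nhds_unique hy2 h5
    · have hN : Nz e (fun n => t⁻¹ • y n) := by
        refine ⟨hb.smul _, hw.smul _, ?_⟩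
        have h4 := nf_smul (e := e) hb (inv_pos.2 h0).le 0
        rwa [mul_zero, h3, inv_mul_cancel₀ h0.ne'] at h4
      have h4 := hsame _ hN (‖x‖ / t) (by positivity)
      have h5 := nf_scale (e := e) hN.b h0 ‖x‖
      have h6 := nf_scale (e := e) hκ.b h0 ‖x‖
      rw [hF, h6, ← h4, ← h5, h2]
      congr 1
      funext n
      rw [smul_smul, mul_inv_cancel₀ h0.ne', one_smul]
  have hex : ∀ (x : E) (t : ℝ), 0 < t → Lim x t (F ‖x‖ t) := by
    intro x t ht
    obtain ⟨l, hl⟩ := exists_Lim hinf hW x ht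
    rwa [hlim x t l hl] at hl
  have h1 : Ext E 1 F := ⟨Or.inl rfl, fun x t l hl => by rw [hlim x t l hl],
    fun x t ht ε hε => ⟨_, hex x t ht, by linarith⟩⟩
  have h2 : Ext E (-1) F := ⟨Or.inr rfl, fun x t l hl => by rw [hlim x t l hl],
    fun x t ht ε hε => ⟨_, hex x t ht, by linarith⟩⟩
  have hass : ∀ r s t, 0 ≤ r → 0 < s → 0 < t → F (F r s) t = F r (F s t) := by
    intro r s t hr hs ht
    have e1 := h1.super hW hS hr hs ht
    have e2 := h2.super hW hS hr hs ht
    linarith
  have hN0 : Nf e κ 0 = 1 := hκ.o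
  obtain ⟨α, hα0, hα1, hα⟩ := power_law hass (fun r t s hr ht hs => h1.smul hr ht hs)
    (fun t ht => h1.zero ht) (fun r t hr ht => h1.nonneg hr ht)
    (by
      rw [hF1]
      have := nf_lt0 hm hc he hκ.b hκ.w one_pos
      rwa [hN0] at this)
    (by
      rw [hF1]
      have := nf_le he hκ.b 1
      rw [hN0, abs_one] at this
      linarith)
    (by
      have : (fun r => F r 1) = Nf e κ := funext hF1
      rw [this]
      exact nf_cont he hκ.b)
  have hT : TSL E α⁻¹ (α / 2) α := by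
    intro x l hx hl
    have e1 := hlim x 1 l hl
    have hs0 : 0 ≤ ‖x‖ ^ α⁻¹ := Real.rpow_nonneg (norm_nonneg _) _
    have hs1 : ‖x‖ ^ α⁻¹ ≤ 1 := Real.rpow_le_one (norm_nonneg _) hx (inv_pos.2 hα0).le
    have e2 := hα (‖x‖ ^ α⁻¹) hs0
    rw [← Real.rpow_mul (norm_nonneg _), inv_mul_cancel₀ hα0.ne', Real.rpow_one] at e2
    rw [e2] at e1
    set s := ‖x‖ ^ α⁻¹ with hs
    constructor
    · rw [e1]
      have e3 : 1 - (1 + s)⁻¹ ≤ Real.log (1 + s) := Real.one_sub_inv_le_log_of_pos (by linarith)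
      have e4 : s / 2 ≤ 1 - (1 + s)⁻¹ := by
        have : 1 - (1 + s)⁻¹ = s / (1 + s) := by field_simp; ring
        rw [this]
        gcongr
        linarith
      have e5 : 1 + α * Real.log (1 + s) ≤ (1 + s) ^ α := by
        rw [Real.rpow_def_of_pos (by linarith)]
        have := Real.add_one_le_exp (Real.log (1 + s) * α)
        linarith
      nlinarith
    · rw [e1]
      exact rpow_one_add_le_one_add_mul_self (by linarith) hα0.le hα1
  refine main_TSL hA hW hS hinf (p := α⁻¹) ?_ (hT.toTSLe (by positivity)) x y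
  exact (one_le_inv₀ hα0).2 hα1

end Pool.Agent.J6H26.MM
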