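import Pool.Agent.J6H26.MM.Ty

/-!
# Weak limits of isometries in spaces with property (M)
-/

set_option autoImplicit false
set_option linter.unusedVariables false
set_option linter.unusedSectionVars false

namespace Pool.Agent.J6H26.MM

open Filter Topology Pool.Agent.N314.OP

variable {E : Type*} [NormedAddCommGroup E] [NormedSpace ℝ E]

lemma eq_of_dual {x y : E} (h : ∀ f : StrongDual ℝ E, f x = f y) : x = y := by
  by_contra hne
  have h0 : x - y ≠ 0 := sub_ne_zero.2 hne
  obtain ⟨f, -, hf⟩ := exists_dual_vector ℝ (x - y) (norm_ne_zero_iff.2 h0)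
  rw [map_sub, h f, sub_self] at hf
  have : ‖x - y‖ = 0 := by simpa using hf.symm
  exact h0 (norm_eq_zero.1 this)

/-- the weak limits of the isometries `g n` and of their inverses -/
structure Pr (g : ℕ → E ≃ₗᵢ[ℝ] E) (R R' : E →L[ℝ] E) : Prop where
  l : ∀ u, UN (fun n => g n u - R u)
  l' : ∀ u, UN (fun n => (g n).symm u - R' u)
  n : ∀ u, ‖R u‖ ≤ ‖u‖
  n' : ∀ u, ‖R' u‖ ≤ ‖u‖

lemma Pr.symm {g : ℕ → E ≃ₗᵢ[ℝ] E} {R R' : E →L[ℝ] E} (h : Pr g R R') :
    Pr (fun n => (g n).symm) R' R := ⟨h.l', h.l, h.n', h.n⟩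

lemma exists_wlim (hU : UW E) (g : ℕ → E ≃ₗᵢ[ℝ] E) : ∃ R : E →L[ℝ] E,
    (∀ u, UN (fun n => g n u - R u)) ∧ ∀ u, ‖R u‖ ≤ ‖u‖ := by
  have hex : ∀ u : E, ∃ b : E, ∀ f : StrongDual ℝ E,
      Tendsto (fun n => f (g n u)) uu (𝓝 (f b)) :=
    fun u => hU (fun n => g n u) ‖u‖ (fun n => ((g n).norm_map u).le) uu
  choose R hR using hex
  have hn : ∀ u, ‖R u‖ ≤ ‖u‖ := by
    intro u
    rcases eq_or_ne (R u) 0 with h0 | h0
    · rw [h0, norm_zero]; exact norm_nonneg _
    obtain ⟨f, hf, hfv⟩ := exists_dual_vector ℝ (R u) (norm_ne_zero_iff.2 h0)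
    have hfv' : f (R u) = ‖R u‖ := by simpa using hfv
    rw [← hfv']
    refine le_of_tendsto' (hR u f) fun n => ?_
    have := f.le_of_opNorm_le hf.le (g n u)
    rw [one_mul, (g n).norm_map] at this
    exact (le_abs_self _).trans this
  let R0 : E →ₗ[ℝ] E :=
    { toFun := R
      map_add' := fun u v => by
        refine eq_of_dual fun f => ?_
        refine tendsto_nhds_unique (hR (u + v) f) ?_
        rw [map_add]
        refine ((hR u f).add (hR v f)).congr fun n => ?_
        rw [map_add, map_add]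
      map_smul' := fun c u => by
        refine eq_of_dual fun f => ?_
        refine tendsto_nhds_unique (hR (c • u) f) ?_
        rw [RingHom.id_apply, map_smul]
        refine ((hR u f).const_smul c).congr fun n => ?_
        rw [map_smul, map_smul] }
  refine ⟨R0.mkContinuous 1 (fun u => by rw [one_mul]; exact hn u), fun u f => ?_, hn⟩
  have h1 := (hR u f).sub_const (f (R u))
  rw [sub_self] at h1
  refine h1.congr fun n => ?_
  show f (g n u) - f (R u) = f (g n u - R u)
  rw [map_sub]

lemma exists_pr (hU : UW E) (g : ℕ → E ≃ₗᵢ[ℝ] E) : ∃ R R' : E →L[ℝ] E, Pr g R R' := by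
  obtain ⟨R, h1, h2⟩ := exists_wlim hU g
  obtain ⟨R', h3, h4⟩ := exists_wlim hU (fun n => (g n).symm)
  exact ⟨R, R', h1, h3, h2, h4⟩

/-- the limit functions of the sequences `g n u - R u` -/
noncomputable def NN (e : E) (g : ℕ → E ≃ₗᵢ[ℝ] E) (R : E →L[ℝ] E) (u : E) (a : ℝ) : ℝ :=
  Nf e (fun n => g n u - R u) a

section

variable {e : E} {g : ℕ → E ≃ₗᵢ[ℝ] E} {R R' : E →L[ℝ] E}

lemma Pr.bd (h : Pr g R R') (u : E) : Bd (fun n => g n u - R u) := by
  refine ⟨‖u‖ + ‖u‖, fun n => (norm_sub_le _ _).trans ?_⟩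
  rw [(g n).norm_map]
  have := h.n u
  linarith

lemma nn_t (hm : MU E) (he : ‖e‖ = 1) (h : Pr g R R') (u z : E) :
    Tendsto (fun n => ‖z + g n u‖) uu (𝓝 (NN e g R u ‖z + R u‖)) := by
  refine (nf_t hm he (h.bd u) (h.l u) (z + R u)).congr fun n => ?_
  congr 1
  abel

/-- **The first identity.** -/
lemma g1 (hm : MU E) (he : ‖e‖ = 1) (h : Pr g R R') (u z : E) :
    NN e g R u ‖z + R u‖ = NN e (fun n => (g n).symm) R' z ‖u + R' z‖ := by
  refine tendsto_nhds_unique (nn_t hm he h u z) ?_
  refine (nn_t hm he h.symm z u).congr fun n => ?_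
  have h1 : u + (g n).symm z = (g n).symm (z + g n u) := by
    rw [map_add, (g n).symm_apply_apply]; abel
  rw [h1, (g n).symm.norm_map]

lemma nn_self (hm : MU E) (he : ‖e‖ = 1) (h : Pr g R R') (u : E) :
    NN e g R u ‖R u‖ = ‖u‖ := by
  have h1 := nn_t hm he h u 0
  rw [zero_add] at h1
  refine tendsto_nhds_unique h1 ?_
  refine tendsto_const_nhds.congr fun n => ?_
  rw [zero_add, (g n).norm_map]

lemma nn_smul (h : Pr g R R') {t : ℝ} (ht : 0 ≤ t) (u : E) (a : ℝ) :
    NN e g R (t • u) (t * a) = t * NN e g R u a := by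
  have := nf_smul (e := e) (h.bd u) ht a
  unfold NN
  rw [← this]
  congr 1
  funext n
  rw [map_smul, map_smul, smul_sub]

lemma nn_neg (hm : MU E) (he : ‖e‖ = 1) (h : Pr g R R') (u : E) (a : ℝ) :
    NN e g R (-u) a = NN e g R u a := by
  have := nf_negw hm he (h.bd u) (h.l u) a
  unfold NN
  rw [← this]
  congr 1
  funext n
  rw [map_neg, map_neg]; abel

lemma nn_lip (he : ‖e‖ = 1) (h : Pr g R R') (u : E) (a b : ℝ) :
    |NN e g R u a - NN e g R u b| ≤ |a - b| := nf_lip he (h.bd u) a b

lemma nn_cont (he : ‖e‖ = 1) (h : Pr g R R') (u : E) : Continuous (NN e g R u) :=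
  nf_cont he (h.bd u)

/-- **The second identity.** -/
lemma g2 (hm : MU E) (he : ‖e‖ = 1) (h : Pr g R R') {κ : ℕ → E} (hb : Bd κ) (hw : UN κ)
    {z z' : E} (hz : ‖z‖ = ‖z'‖) :
    NN e (fun n => (g n).symm) R' z (Nf e κ ‖R' z‖) =
      NN e (fun n => (g n).symm) R' z' (Nf e κ ‖R' z'‖) := by
  have key : ∀ z : E, Tendsto (fun m => NN e g R (κ m) ‖z + R (κ m)‖) uu
      (𝓝 (NN e (fun n => (g n).symm) R' z (Nf e κ ‖R' z‖))) := by
    intro z
    have h1 := nf_t hm he hb hw (R' z)
    have h2 := ((nn_cont he h.symm z).tendsto _).comp h1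
    refine h2.congr fun m => ?_
    show NN e (fun n => (g n).symm) R' z ‖R' z + κ m‖ = _
    rw [g1 hm he h, add_comm]
  have h1 := (key z).sub (key z')
  have h2 : Tendsto (fun m => NN e g R (κ m) ‖z + R (κ m)‖ - NN e g R (κ m) ‖z' + R (κ m)‖) uu
      (𝓝 0) := by
    have h3 := nf_t hm he (hb.map R) (hw.map R) z
    have h4 := nf_t hm he (hb.map R) (hw.map R) z'
    rw [← hz] at h4
    have h5 := (h3.sub h4).abs
    rw [sub_self, abs_zero] at h5
    refine squeeze_zero_norm (fun m => ?_) h5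
    rw [Real.norm_eq_abs]
    exact nn_lip he h (κ m) _ _
  have := tendsto_nhds_unique h1 h2
  linarith

end

/-- normalized weakly null sequences -/
structure Nz (e : E) (κ : ℕ → E) : Prop where
  b : Bd κ
  w : UN κ
  o : Nf e κ 0 = 1

lemma nf_t0 {e : E} {w : ℕ → E} (hb : Bd w) : Tendsto (fun n => ‖w n‖) uu (𝓝 (Nf e w 0)) := by
  refine (nf_t' (e := e) hb 0).congr fun n => ?_
  rw [zero_smul, zero_add]

lemma nf_scale {e : E} {κ : ℕ → E} (hb : Bd κ) {t : ℝ} (ht : 0 < t) (a : ℝ) :
    Nf e (fun n => t • κ n) a = t * Nf e κ (a / t) := by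
  have := nf_smul (e := e) hb ht.le (a / t)
  rwa [mul_div_cancel₀ _ ht.ne'] at this

/-- **The dichotomy.** If the norms of a weak limit are not constant on the sphere, all the
normalized weakly null sequences have the same limit function. -/
theorem dicho (hm : MU E) (hc : UC E) {e : E} (he : ‖e‖ = 1) {g : ℕ → E ≃ₗᵢ[ℝ] E}
    {R R' : E →L[ℝ] E} (h : Pr g R R') {z z' : E} (hz : ‖z‖ = 1) (hz' : ‖z'‖ = 1)
    (hlt : ‖R' z‖ < ‖R' z'‖) {κ₁ κ₂ : ℕ → E} (h1 : Nz e κ₁) (h2 : Nz e κ₂) {a : ℝ}
    (ha : 0 ≤ a) : Nf e κ₁ a = Nf e κ₂ a := by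
  set r := ‖R' z‖ with hr
  set q := ‖R' z'‖ with hq
  have hr0 : 0 ≤ r := norm_nonneg _
  have hq0 : 0 < q := by linarith
  -- transfer
  have htr : ∀ (s t : ℝ), 0 < s → 0 < t → s * Nf e κ₁ (r / s) = t * Nf e κ₂ (r / t) →
      s * Nf e κ₁ (q / s) = t * Nf e κ₂ (q / t) := by
    intro s t hs ht heq
    have e1 := g2 hm he h (h1.b.smul s) (h1.w.smul s) (hz.trans hz'.symm)
    have e2 := g2 hm he h (h2.b.smul t) (h2.w.smul t) (hz.trans hz'.symm)
    rw [nf_scale h1.b hs, nf_scale h1.b hs] at e1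
    rw [nf_scale h2.b ht, nf_scale h2.b ht] at e2
    rw [heq] at e1
    rw [e1] at e2
    refine nf_inj hm hc he (h.symm.bd z') (h.l' z') ?_ ?_ e2
    · exact mul_nonneg hs.le (nf_nonneg h1.b _)
    · exact mul_nonneg ht.le (nf_nonneg h2.b _)
  rcases ha.eq_or_lt with ha0 | ha0
  · rw [← ha0, h1.o, h2.o]
  rcases hr0.eq_or_lt with h0 | h0
  · -- `r = 0`
    have hs : 0 < q / a := by positivity
    have h3 := htr (q / a) (q / a) hs hs (by rw [← h0, zero_div, h1.o, h2.o])
    have h4 : q / (q / a) = a := by field_simp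
    rw [h4] at h3
    exact mul_left_cancel₀ hs.ne' h3
  · -- `r > 0`
    have hl1 : r / q < 1 := by rw [div_lt_one hq0]; exact hlt
    have hl0 : 0 < r / q := by positivity
    set s0 := r / a with hs0
    have hs0p : 0 < s0 := by positivity
    -- iterated transfer
    have hit : ∀ (k : ℕ) (s t : ℝ), 0 < s → 0 < t →
        s * Nf e κ₁ (r / s) = t * Nf e κ₂ (r / t) →
        ((r / q) ^ k * s) * Nf e κ₁ (r / ((r / q) ^ k * s)) =
          ((r / q) ^ k * t) * Nf e κ₂ (r / ((r / q) ^ k * t)) := by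
      intro k
      induction k with
      | zero => intro s t hs ht heq; simpa using heq
      | succ k ih =>
        intro s t hs ht heq
        have e1 := htr s t hs ht heq
        have e2 := ih (r / q * s) (r / q * t) (by positivity) (by positivity) (by
          have e3 : r / (r / q * s) = q / s := by field_simp
          have e4 : r / (r / q * t) = q / t := by field_simp
          rw [e3, e4, mul_assoc, mul_assoc, e1])
        have e5 : (r / q) ^ (k + 1) * s = (r / q) ^ k * (r / q * s) := by ring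
        have e6 : (r / q) ^ (k + 1) * t = (r / q) ^ k * (r / q * t) := by ring
        rw [e5, e6]
        exact e2
    -- the sequences
    have hex : ∀ s : ℝ, r < s → ∃ t : ℝ, 0 < t ∧ |t - s| ≤ r ∧
        s * Nf e κ₁ (r / s) = t * Nf e κ₂ (r / t) := by
      intro s hs
      have hs0 : 0 < s := by linarith
      set y := s * Nf e κ₁ (r / s) with hy
      have hy1 : s ≤ y := by
        have := nf_zero_le hm h1.b h1.w (e := e) (r / s)
        rw [h1.o] at this
        rw [hy]; nlinarith
      have hy2 : y ≤ s + r := by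
        have := nf_le he h1.b (r / s)
        rw [h1.o, abs_of_pos (by positivity)] at this
        have h4 : s * (r / s) = r := by field_simp
        rw [hy]; nlinarith
      have hyr : 0 < y - r := by linarith
      have hcont : ContinuousOn (fun t => t * Nf e κ₂ (r / t)) (Set.Icc (y - r) y) := by
        refine continuousOn_id.mul ((nf_cont he h2.b).comp_continuousOn ?_)
        refine continuousOn_const.div continuousOn_id fun t ht => ?_
        have : 0 < t := lt_of_lt_of_le hyr ht.1
        exact this.ne'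
      have hle : y - r ≤ y := by linarith
      have hmem : y ∈ Set.Icc ((fun t => t * Nf e κ₂ (r / t)) (y - r))
          ((fun t => t * Nf e κ₂ (r / t)) y) := by
        constructor
        · have := nf_le he h2.b (r / (y - r))
          rw [h2.o, abs_of_pos (by positivity)] at this
          have h4 : (y - r) * (r / (y - r)) = r := by field_simp
          show (y - r) * Nf e κ₂ (r / (y - r)) ≤ y
          nlinarith
        · have := nf_zero_le hm h2.b h2.w (e := e) (r / y)
          rw [h2.o] at this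
          show y ≤ y * Nf e κ₂ (r / y)
          nlinarith
      obtain ⟨t, ht, hty⟩ := intermediate_value_Icc hle hcont hmem
      refine ⟨t, lt_of_lt_of_le hyr ht.1, ?_, hty.symm⟩
      rw [abs_le]
      constructor <;> linarith [ht.1, ht.2]
    -- conclusion
    have hlim0 : Tendsto (fun k : ℕ => (r / q) ^ k) atTop (𝓝 0) :=
      tendsto_pow_atTop_nhds_zero_of_lt_one hl0.le hl1
    have hbig : ∀ᶠ k : ℕ in atTop, r < s0 / (r / q) ^ k := by
      have h3 := hlim0.eventually (gt_mem_nhds (show (0 : ℝ) < s0 / (r + 1) by positivity))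
      filter_upwards [h3] with k hk
      have hp : 0 < (r / q) ^ k := by positivity
      rw [lt_div_iff₀ hp]
      rw [lt_div_iff₀ (by linarith)] at hk
      nlinarith
    obtain ⟨K, hK⟩ := eventually_atTop.1 hbig
    choose t ht1 ht2 ht3 using fun k : ℕ => hex _ (hK (K + k) (by omega))
    have hp : ∀ k : ℕ, 0 < (r / q) ^ (K + k) := fun k => by positivity
    have h3 : ∀ k : ℕ, s0 * Nf e κ₁ (r / s0) =
        ((r / q) ^ (K + k) * t k) * Nf e κ₂ (r / ((r / q) ^ (K + k) * t k)) := by
      intro k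
      have h4 := hit (K + k) _ _ (by have := hp k; positivity) (ht1 k) (ht3 k)
      rw [mul_div_cancel₀ _ (hp k).ne'] at h4
      exact h4
    have h4 : Tendsto (fun k : ℕ => (r / q) ^ (K + k) * t k) atTop (𝓝 s0) := by
      rw [tendsto_iff_dist_tendsto_zero]
      have h5 : Tendsto (fun k : ℕ => (r / q) ^ (K + k) * r) atTop (𝓝 0) := by
        have h6 := (hlim0.comp (tendsto_add_atTop_nat K)).mul_const r
        rw [zero_mul] at h6
        refine h6.congr fun k => ?_
        show (r / q) ^ (k + K) * r = _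
        rw [add_comm]
      refine squeeze_zero (fun _ => dist_nonneg) (fun k => ?_) h5
      rw [Real.dist_eq]
      have h6 : (r / q) ^ (K + k) * t k - s0 =
          (r / q) ^ (K + k) * (t k - s0 / (r / q) ^ (K + k)) := by
        have := (hp k).ne'
        field_simp
      rw [h6, abs_mul, abs_of_pos (hp k)]
      exact mul_le_mul_of_nonneg_left (ht2 k) (hp k).le
    have h5 : ContinuousAt (fun t => t * Nf e κ₂ (r / t)) s0 := by
      refine continuousAt_id.mul ((nf_cont he h2.b).continuousAt.comp ?_)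
      exact continuousAt_const.div continuousAt_id hs0p.ne'
    have h6 := h5.tendsto.comp h4
    have h7 : s0 * Nf e κ₁ (r / s0) = s0 * Nf e κ₂ (r / s0) := by
      refine tendsto_nhds_unique (tendsto_const_nhds.congr fun k => ?_) h6
      exact h3 k
    have h8 : r / s0 = a := by rw [hs0]; field_simp
    rw [h8] at h7
    exact mul_left_cancel₀ hs0p.ne' h7

end Pool.Agent.J6H26.MM
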