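import Mathlib

/-!
# Plane norms with two reflections

A seminorm on the plane with reflections `(a, b) ↦ (a + 2 r b, - b)` and
`(a, b) ↦ (- a, b + 2 r' a)` is within `1 - r r'` of the square root of the quadratic form
`r' a ^ 2 + 2 r r' a b + r b ^ 2`, up to a constant factor.
-/

set_option autoImplicit false

namespace Pool.Agent.J6H26.MM

open Real

/-- a seminorm which is invariant under a rotation is nearly constant on the circle -/
theorem rot_near {P : ℝ → ℝ → ℝ} (hsub : ∀ x y x' y', P (x + x') (y + y') ≤ P x y + P x' y')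
    (hhom : ∀ c x y, P (c * x) (c * y) = |c| * P x y) {φ : ℝ} (h0 : 0 < φ) (h1 : φ < π)
    (hper : Function.Periodic (fun t => P (cos t) (sin t)) φ) (s t : ℝ) :
    cos (φ / 2) * P (cos t) (sin t) ≤ P (cos s) (sin s) := by
  have hnn : ∀ x y, 0 ≤ P x y := by
    intro x y
    have h2 := hsub x y (-x) (-y)
    have h3 := hhom (-1) x y
    rw [abs_neg, abs_one, one_mul, neg_one_mul, neg_one_mul] at h3
    have h4 := hhom 0 0 0
    rw [abs_zero, zero_mul, zero_mul] at h4
    rw [add_neg_cancel, add_neg_cancel, h3, h4] at h2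
    linarith
  have hsφ : 0 < sin φ := sin_pos_of_pos_of_lt_pi h0 h1
  have hc2 : 0 < cos (φ / 2) := cos_pos_of_mem_Ioo ⟨by linarith, by linarith⟩
  have hs2 : 0 < sin (φ / 2) := sin_pos_of_pos_of_lt_pi (by linarith) (by linarith)
  set k : ℤ := ⌊(t - s) / φ⌋ with hk
  set β : ℝ := t - s - k * φ with hβ
  have hβ0 : 0 ≤ β := by
    have := Int.floor_le ((t - s) / φ)
    rw [le_div_iff₀ h0] at this
    rw [hβ]; linarith
  have hβ1 : β < φ := by
    have := Int.lt_floor_add_one ((t - s) / φ)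
    rw [div_lt_iff₀ h0] at this
    rw [hβ]; linarith
  set u : ℝ := s + k * φ with hu
  have htu : t = u + β := by rw [hu, hβ]; ring
  have hp0 : P (cos u) (sin u) = P (cos s) (sin s) := hper.int_mul k s
  have hp1 : P (cos (u + φ)) (sin (u + φ)) = P (cos s) (sin s) := by
    rw [← hp0]; exact hper u
  have e1 : sin (φ - β) * cos u + sin β * cos (u + φ) = sin φ * cos t := by
    rw [htu, sin_sub φ β, cos_add u φ, cos_add u β]; ring
  have e2 : sin (φ - β) * sin u + sin β * sin (u + φ) = sin φ * sin t := by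
    rw [htu, sin_sub φ β, sin_add u φ, sin_add u β]; ring
  have h3 := hsub (sin (φ - β) * cos u) (sin (φ - β) * sin u) (sin β * cos (u + φ))
    (sin β * sin (u + φ))
  rw [e1, e2, hhom, hhom, hhom, hp0, hp1] at h3
  have hb1 : 0 ≤ sin (φ - β) := sin_nonneg_of_nonneg_of_le_pi (by linarith) (by linarith)
  have hb2 : 0 ≤ sin β := sin_nonneg_of_nonneg_of_le_pi hβ0 (by linarith)
  rw [abs_of_pos hsφ, abs_of_nonneg hb1, abs_of_nonneg hb2, ← add_mul] at h3
  have h4 : sin (φ - β) + sin β ≤ 2 * sin (φ / 2) := by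
    have h5 : sin (φ - β) + sin β = 2 * sin (φ / 2) * cos (φ / 2 - β) := by
      obtain ⟨γ, hγ⟩ : ∃ γ, γ = φ / 2 - β := ⟨_, rfl⟩
      have e3 : φ - β = φ / 2 + γ := by rw [hγ]; ring
      have e4 : β = φ / 2 - γ := by rw [hγ]; ring
      have e5 : sin β = sin (φ / 2 - γ) := by rw [← e4]
      rw [e3, e5, ← hγ, sin_add, sin_sub]; ring
    rw [h5]
    have h6 := cos_le_one (φ / 2 - β)
    nlinarith
  have h5 : sin φ = 2 * sin (φ / 2) * cos (φ / 2) := by
    rw [← sin_two_mul]; congr 1; ring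
  have h6 : sin φ * P (cos t) (sin t) ≤ 2 * sin (φ / 2) * P (cos s) (sin s) :=
    h3.trans (mul_le_mul_of_nonneg_right h4 (hnn _ _))
  rw [h5] at h6
  have h7 : 2 * sin (φ / 2) * (cos (φ / 2) * P (cos t) (sin t)) ≤
      2 * sin (φ / 2) * P (cos s) (sin s) := by
    linarith
  exact le_of_mul_le_mul_left h7 (by linarith)

/-- **Two reflections.** -/
theorem two_refl {Q : ℝ → ℝ → ℝ} (hsub : ∀ x y x' y', Q (x + x') (y + y') ≤ Q x y + Q x' y')
    (hhom : ∀ c x y, Q (c * x) (c * y) = |c| * Q x y) {r r' : ℝ} (hr : 0 < r) (hr' : 0 < r')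
    (h1 : r * r' < 1) (hs1 : ∀ a b, Q (a + 2 * r * b) (-b) = Q a b)
    (hs2 : ∀ a b, Q (-a) (b + 2 * r' * a) = Q a b) (a b c d : ℝ) :
    (1 - r * r') * Q a b ^ 2 * (r' * c ^ 2 + 2 * r * r' * c * d + r * d ^ 2) ≤
      Q c d ^ 2 * (r' * a ^ 2 + 2 * r * r' * a * b + r * b ^ 2) := by
  have hρ : 0 < r * r' := by positivity
  set k1 : ℝ := √r' with hk1
  set k2 : ℝ := √(r * (1 - r * r')) with hk2
  have hk1p : 0 < k1 := Real.sqrt_pos.2 hr'
  have hk2p : 0 < k2 := Real.sqrt_pos.2 (mul_pos hr (by linarith))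
  have hk1s : k1 ^ 2 = r' := Real.sq_sqrt hr'.le
  have hk2s : k2 ^ 2 = r * (1 - r * r') := Real.sq_sqrt (mul_pos hr (by linarith)).le
  obtain ⟨P, hP⟩ : ∃ P : ℝ → ℝ → ℝ, ∀ x y, P x y = Q (x / k1 - r * (y / k2)) (y / k2) :=
    ⟨_, fun x y => rfl⟩
  have hPQ : ∀ a b, Q a b = P (k1 * (a + r * b)) (k2 * b) := by
    intro a b
    rw [hP]
    congr 1
    · field_simp; ring
    · field_simp
  have hPsub : ∀ x y x' y', P (x + x') (y + y') ≤ P x y + P x' y' := by
    intro x y x' y'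
    rw [hP, hP, hP]
    refine le_trans (le_of_eq ?_) (hsub _ _ _ _)
    congr 1 <;> ring
  have hPhom : ∀ c x y, P (c * x) (c * y) = |c| * P x y := by
    intro c x y
    rw [hP, hP, ← hhom]
    congr 1 <;> ring
  have hPneg : ∀ x y, P (-x) (-y) = P x y := by
    intro x y
    have := hPhom (-1) x y
    rwa [abs_neg, abs_one, one_mul, neg_one_mul, neg_one_mul] at this
  set co : ℝ := 2 * (r * r') - 1 with hco
  set θ : ℝ := arccos co with hθ
  have hco1 : -1 < co := by rw [hco]; linarith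
  have hco2 : co < 1 := by rw [hco]; linarith
  have hcos : cos θ = co := cos_arccos hco1.le hco2.le
  have hθ0 : 0 < θ := arccos_pos.2 hco2
  have hθπ : θ < π := by
    rw [hθ, arccos_lt_pi]; exact hco1
  have hsin : sin θ = 2 * k1 * k2 := by
    have h2 : 0 < sin θ := sin_pos_of_pos_of_lt_pi hθ0 hθπ
    have h3 : sin θ ^ 2 = (2 * k1 * k2) ^ 2 := by
      rw [sin_sq, hcos, hco, mul_pow, mul_pow, hk1s, hk2s]; ring
    exact (pow_left_inj₀ h2.le (by positivity) two_ne_zero).1 h3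
  have hrot : ∀ x y, P (co * x - 2 * k1 * k2 * y) (2 * k1 * k2 * x + co * y) = P x y := by
    intro x y
    obtain ⟨b, hb⟩ : ∃ b, b = y / k2 := ⟨_, rfl⟩
    obtain ⟨a, ha⟩ : ∃ a, a = x / k1 - r * b := ⟨_, rfl⟩
    have hy : y = k2 * b := by rw [hb]; field_simp
    have hx : x = k1 * (a + r * b) := by rw [ha]; field_simp; ring
    have e1 : P x y = Q a b := by rw [hPQ, hx, hy]
    rw [e1, ← hs1 a b, ← hs2 (a + 2 * r * b) (-b), hPQ]
    have hk2s' : k2 ^ 2 = r - r * r * r' := by rw [hk2s]; ring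
    congr 1
    · rw [hx, hy, hco]
      linear_combination (2 * k1 * b) * (-1) * hk2s'
    · rw [hx, hy, hco]
      linear_combination (2 * k2 * (a + r * b)) * hk1s
  have hper1 : Function.Periodic (fun t => P (cos t) (sin t)) θ := by
    intro t
    show P (cos (t + θ)) (sin (t + θ)) = P (cos t) (sin t)
    rw [← hrot (cos t) (sin t), cos_add, sin_add, hcos, hsin]
    congr 1 <;> ring
  have hper2 : Function.Periodic (fun t => P (cos t) (sin t)) π := by
    intro t
    show P (cos (t + π)) (sin (t + π)) = P (cos t) (sin t)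
    rw [cos_add_pi, sin_add_pi, hPneg]
  have hper := hper2.sub_period hper1
  have hnear := rot_near hPsub hPhom (by linarith : 0 < π - θ) (by linarith : π - θ < π) hper
  have hc2 : cos ((π - θ) / 2) ^ 2 = 1 - r * r' := by
    rw [cos_sq]
    have : 2 * ((π - θ) / 2) = π - θ := by ring
    rw [this, cos_pi_sub, hcos, hco]; ring
  have hc20 : 0 ≤ cos ((π - θ) / 2) :=
    (cos_pos_of_mem_Ioo ⟨by linarith, by linarith⟩).le
  have hPnn : ∀ x y, 0 ≤ P x y := by
    intro x y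
    have h2 := hPsub x y (-x) (-y)
    have h4 := hPhom 0 0 0
    rw [abs_zero, zero_mul, zero_mul] at h4
    rw [add_neg_cancel, add_neg_cancel, hPneg, h4] at h2
    linarith
  -- polar coordinates
  have hpol : ∀ a b, ∃ t, Q a b ^ 2 =
      (r' * a ^ 2 + 2 * r * r' * a * b + r * b ^ 2) * P (cos t) (sin t) ^ 2 := by
    intro a b
    obtain ⟨z, hz⟩ : ∃ z : ℂ, z = ⟨k1 * (a + r * b), k2 * b⟩ := ⟨_, rfl⟩
    refine ⟨z.arg, ?_⟩
    have e1 : k1 * (a + r * b) = ‖z‖ * cos z.arg := by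
      rw [Complex.norm_mul_cos_arg, hz]
    have e2 : k2 * b = ‖z‖ * sin z.arg := by
      rw [Complex.norm_mul_sin_arg, hz]
    have e3 : ‖z‖ ^ 2 = r' * a ^ 2 + 2 * r * r' * a * b + r * b ^ 2 := by
      rw [Complex.sq_norm, Complex.normSq_apply, hz]
      show k1 * (a + r * b) * (k1 * (a + r * b)) + k2 * b * (k2 * b) = _
      linear_combination (a + r * b) ^ 2 * hk1s + b ^ 2 * hk2s
    rw [hPQ, e1, e2, hPhom, abs_norm, mul_pow, e3]
  obtain ⟨t, ht⟩ := hpol a b
  obtain ⟨s, hs⟩ := hpol c d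
  rw [ht, hs]
  have h2 := hnear s t
  have h3 : (1 - r * r') * P (cos t) (sin t) ^ 2 ≤ P (cos s) (sin s) ^ 2 := by
    rw [← hc2, ← mul_pow]
    exact pow_le_pow_left₀ (mul_nonneg hc20 (hPnn _ _)) h2 2
  have hE : ∀ a b : ℝ, 0 ≤ r' * a ^ 2 + 2 * r * r' * a * b + r * b ^ 2 := by
    intro a b
    have : r' * a ^ 2 + 2 * r * r' * a * b + r * b ^ 2 =
        r' * (a + r * b) ^ 2 + r * (1 - r * r') * b ^ 2 := by ring
    rw [this]
    have h5 : 0 ≤ r * (1 - r * r') := (mul_pos hr (by linarith)).le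
    positivity
  have h4 := mul_le_mul_of_nonneg_left h3 (mul_nonneg (hE a b) (hE c d))
  linarith

end Pool.Agent.J6H26.MM
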