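import Pool.Agent.J6H26.MM.Us
import Pool.Agent.H857R2.NC.MPT

/-!
# Almost transitive spaces with separable dual are uniformly smooth, uniformly convex, reflexive
-/

set_option autoImplicit false

namespace Pool.Agent.J6H26.MM

open Filter Topology Pool.Agent.N314.OP

variable {X : Type*} [NormedAddCommGroup X] [NormedSpace ℝ X]

/-- the dual of a uniformly smooth space is uniformly convex -/
theorem dual_uc (h : US X) : UniformConvexSpace (StrongDual ℝ X) := by
  refine ⟨fun ε hε => ?_⟩
  obtain ⟨t, ht, h1⟩ := h (ε / 4) (by positivity)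
  refine ⟨ε * t / 4, by positivity, fun f hf g hg hfg => ?_⟩
  by_contra hcon
  push Not at hcon
  -- a vector where `f + g` is large
  obtain ⟨x, hx, hxv⟩ : ∃ x : X, ‖x‖ = 1 ∧ 2 - ε * t / 4 < (f + g) x := by
    have hlt : max (2 - ε * t / 4) 0 < ‖f + g‖ := by
      refine max_lt hcon ?_
      rcases (norm_nonneg (f + g)).eq_or_lt with h0 | h0
      · exfalso
        have : f + g = 0 := norm_eq_zero.1 h0.symm
        -- then `2 - ε t / 4 < 0`; but `t` may be large: use `‖f - g‖ ≤ 2`
        rw [← h0] at hcon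
        have hv : ∀ v : X, ‖v‖ = 1 → False := by
          intro v hv
          have h2 := h1 v (t • v) hv (by rw [norm_smul, hv, mul_one, Real.norm_of_nonneg ht.le])
          have e1 : v + t • v = (1 + t) • v := by rw [add_smul, one_smul]
          have e2 : v - t • v = (1 - t) • v := by rw [sub_smul, one_smul]
          rw [e1, e2, norm_smul, norm_smul, norm_smul, hv, mul_one, mul_one, mul_one,
            Real.norm_of_nonneg ht.le, Real.norm_of_nonneg (by linarith : (0 : ℝ) ≤ 1 + t),
            Real.norm_eq_abs] at h2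
          have h3 := neg_abs_le (1 - t)
          have h4 : ε ≤ 2 := by
            refine hfg.trans ((norm_sub_le _ _).trans ?_)
            rw [hf, hg]; norm_num
          nlinarith
        have hf0 : f ≠ 0 := by
          intro h0
          rw [h0, norm_zero] at hf
          exact zero_ne_one hf
        obtain ⟨v, hv0⟩ : ∃ v, f v ≠ 0 := by
          by_contra hc
          push Not at hc
          exact hf0 (ContinuousLinearMap.ext hc)
        have hv1 : v ≠ 0 := by
          intro h0
          rw [h0, map_zero] at hv0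
          exact hv0 rfl
        refine hv (‖v‖⁻¹ • v) ?_
        rw [norm_smul, norm_inv, norm_norm, inv_mul_cancel₀ (norm_ne_zero_iff.2 hv1)]
      · exact h0
    obtain ⟨y, hy, hyv⟩ := ContinuousLinearMap.exists_lt_apply_of_lt_opNorm (f + g) hlt
    have hy0 : y ≠ 0 := by
      intro h0
      rw [h0, map_zero, norm_zero] at hyv
      exact absurd hyv (not_lt.2 (le_max_right _ _))
    have hn : 0 < ‖y‖ := norm_pos_iff.2 hy0
    have hyv' : 2 - ε * t / 4 < ‖(f + g) y‖ / ‖y‖ := by
      refine (le_max_left _ _).trans_lt (hyv.trans_le ?_)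
      rw [le_div_iff₀ hn]
      have := norm_nonneg ((f + g) y)
      nlinarith
    rcases le_total 0 ((f + g) y) with h0 | h0
    · refine ⟨‖y‖⁻¹ • y, by rw [norm_smul, norm_inv, norm_norm, inv_mul_cancel₀ hn.ne'], ?_⟩
      rw [map_smul, smul_eq_mul, ← div_eq_inv_mul]
      rw [Real.norm_of_nonneg h0] at hyv'
      exact hyv'
    · refine ⟨-(‖y‖⁻¹ • y), by
        rw [norm_neg, norm_smul, norm_inv, norm_norm, inv_mul_cancel₀ hn.ne'], ?_⟩
      rw [map_neg, map_smul, smul_eq_mul, ← div_eq_inv_mul]
      rw [Real.norm_of_nonpos h0, neg_div] at hyv'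
      exact hyv'
  -- a vector where `f - g` is large
  have hlt : ε / 2 < ‖f - g‖ := by linarith
  obtain ⟨y, hy, hyv⟩ := ContinuousLinearMap.exists_lt_apply_of_lt_opNorm (f - g) hlt
  obtain ⟨v, hv, hvv⟩ : ∃ v : X, ‖v‖ < 1 ∧ ε / 2 < (f - g) v := by
    rcases le_total 0 ((f - g) y) with h0 | h0
    · exact ⟨y, hy, by rwa [Real.norm_of_nonneg h0] at hyv⟩
    · refine ⟨-y, by rwa [norm_neg], ?_⟩
      rw [Real.norm_of_nonpos h0] at hyv
      rwa [map_neg]
  have h2 := h1 x (t • v) hx (by
    rw [norm_smul, Real.norm_of_nonneg ht.le]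
    nlinarith)
  have h3 : f (x + t • v) ≤ ‖x + t • v‖ := by
    have := f.le_of_opNorm_le hf.le (x + t • v)
    rw [one_mul] at this
    exact (le_abs_self _).trans this
  have h4 : g (x - t • v) ≤ ‖x - t • v‖ := by
    have := g.le_of_opNorm_le hg.le (x - t • v)
    rw [one_mul] at this
    exact (le_abs_self _).trans this
  have h5 : ‖t • v‖ ≤ t := by
    rw [norm_smul, Real.norm_of_nonneg ht.le]
    nlinarith
  rw [map_add, map_smul, smul_eq_mul] at h3
  rw [map_sub, map_smul, smul_eq_mul] at h4
  have h6 : (f + g) x = f x + g x := rfl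
  have h7 : (f - g) v = f v - g v := rfl
  rw [h6] at hxv
  rw [h7] at hvv
  nlinarith

/-- a space with reflexive dual is reflexive -/
theorem refl_of_dual [CompleteSpace X]
    (h : Function.Surjective (NormedSpace.inclusionInDoubleDual ℝ (StrongDual ℝ X))) :
    Function.Surjective (NormedSpace.inclusionInDoubleDual ℝ X) := by
  set ι := NormedSpace.inclusionInDoubleDualLi (E := X) ℝ with hι
  have hcl : IsClosed (Set.range ι) :=
    ι.isometry.isUniformInducing.isComplete_range.isClosed
  intro Φ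
  by_contra hcon
  have hΦ : Φ ∉ Set.range ι := by
    rintro ⟨x, hx⟩
    exact hcon ⟨x, hx⟩
  set S : Submodule ℝ (StrongDual ℝ (StrongDual ℝ X)) := LinearMap.range ι.toLinearMap with hS
  have hSc : IsClosed (S : Set (StrongDual ℝ (StrongDual ℝ X))) := by
    have : (S : Set (StrongDual ℝ (StrongDual ℝ X))) = Set.range ι := by
      ext y; simp [hS]
    rw [this]; exact hcl
  have hΦS : Φ ∉ S := by
    rintro ⟨x, hx⟩
    exact hΦ ⟨x, hx⟩
  obtain ⟨Ψ, u, hu1, hu2⟩ := geometric_hahn_banach_closed_point (S.convex) hSc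
    (by simpa using hΦS)
  have hΨ0 : ∀ s ∈ S, Ψ s = 0 := by
    intro s hs
    by_contra h0
    have h1 := hu1 (((u + 1) / Ψ s) • s) (S.smul_mem _ hs)
    rw [map_smul, smul_eq_mul, div_mul_cancel₀ _ h0] at h1
    linarith
  obtain ⟨f, hf⟩ := h Ψ
  have hf0 : f = 0 := by
    ext x
    have h1 : Ψ (ι x) = 0 := hΨ0 _ ⟨x, rfl⟩
    rw [← hf] at h1
    exact h1
  have h1 : Ψ Φ = 0 := by
    rw [← hf, hf0, map_zero]
    rfl
  have h2 := hu1 0 S.zero_mem
  rw [map_zero] at h2
  linarith

/-- a space with separable dual is separable -/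
theorem sep_of_dual [TopologicalSpace.SeparableSpace (StrongDual ℝ X)] :
    TopologicalSpace.SeparableSpace X := by
  have hd := TopologicalSpace.denseRange_denseSeq (StrongDual ℝ X)
  set F := TopologicalSpace.denseSeq (StrongDual ℝ X) with hF
  have hch : ∀ n, ∃ x : X, ‖x‖ ≤ 1 ∧ ‖F n‖ / 2 ≤ |F n x| := by
    intro n
    rcases (norm_nonneg (F n)).eq_or_lt with h0 | h0
    · exact ⟨0, by simp, by rw [← h0]; simp⟩
    · obtain ⟨x, hx, hxv⟩ := ContinuousLinearMap.exists_lt_apply_of_lt_opNorm (F n)
        (half_lt_self h0)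
      exact ⟨x, hx.le, hxv.le⟩
  choose x hx1 hx2 using hch
  set S : Submodule ℝ X := (Submodule.span ℝ (Set.range x)).topologicalClosure with hS
  have hsep : TopologicalSpace.IsSeparable (S : Set X) := by
    rw [hS, Submodule.topologicalClosure_coe]
    exact (TopologicalSpace.IsSeparable.span
      ((Set.countable_range x).isSeparable)).closure
  have htop : S = ⊤ := by
    by_contra hne
    obtain ⟨v, hv⟩ : ∃ v, v ∉ S := by
      by_contra hc
      push Not at hc
      exact hne (eq_top_iff.2 fun v _ => hc v)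
    have hSc : IsClosed (S : Set X) := Submodule.isClosed_topologicalClosure _
    obtain ⟨Ψ, u, hu1, hu2⟩ := geometric_hahn_banach_closed_point (S.convex) hSc
      (by simpa using hv)
    have hΨ0 : ∀ s ∈ S, Ψ s = 0 := by
      intro s hs
      by_contra h0
      have h1 := hu1 (((u + 1) / Ψ s) • s) (S.smul_mem _ hs)
      rw [map_smul, smul_eq_mul, div_mul_cancel₀ _ h0] at h1
      linarith
    have hΨ : Ψ ≠ 0 := by
      intro h0
      have h2 := hu1 0 S.zero_mem
      rw [h0] at h2 hu2
      simp only [_root_.zero_apply] at h2 hu2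
      linarith
    have hn : 0 < ‖Ψ‖ := norm_pos_iff.2 hΨ
    obtain ⟨n, hn'⟩ := Metric.denseRange_iff.1 hd Ψ (‖Ψ‖ / 4) (by positivity)
    rw [dist_eq_norm] at hn'
    have h3 : ‖Ψ‖ - ‖Ψ‖ / 4 ≤ ‖F n‖ := by
      have := norm_sub_norm_le Ψ (Ψ - F n)
      rw [sub_sub_cancel] at this
      linarith
    have h4 : Ψ (x n) = 0 := hΨ0 _ (Submodule.le_topologicalClosure _
      (Submodule.subset_span ⟨n, rfl⟩))
    have h5 : |F n (x n)| ≤ ‖Ψ‖ / 4 := by
      have e1 : F n (x n) = -((Ψ - F n) (x n)) := by
        rw [_root_.sub_apply, h4]; ring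
      rw [e1, abs_neg]
      calc |(Ψ - F n) (x n)| ≤ ‖Ψ - F n‖ * ‖x n‖ := (Ψ - F n).le_opNorm _
        _ ≤ ‖Ψ‖ / 4 * 1 := by gcongr; exact hx1 n
        _ = _ := mul_one _
    have h6 := hx2 n
    linarith
  rw [htop] at hsep
  have : TopologicalSpace.IsSeparable (Set.univ : Set X) := by simpa using hsep
  exact TopologicalSpace.isSeparable_univ_iff.1 this

/-- **Almost transitive spaces with separable dual.** -/
theorem good_of_AT [CompleteSpace X] [TopologicalSpace.SeparableSpace (StrongDual ℝ X)]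
    (hA : AT X) : US X ∧ UC X ∧ Function.Surjective (NormedSpace.inclusionInDoubleDual ℝ X) := by
  have hU : US X := us_of_AT (ATl.of hA)
  have := dual_uc hU
  have hr : Function.Surjective (NormedSpace.inclusionInDoubleDual ℝ X) :=
    refl_of_dual (H857NC.MPT (StrongDual ℝ X))
  have : TopologicalSpace.SeparableSpace X := sep_of_dual
  have : TopologicalSpace.SeparableSpace (StrongDual ℝ (StrongDual ℝ X)) :=
    hr.denseRange.separableSpace (NormedSpace.inclusionInDoubleDual ℝ X).continuous
  exact ⟨hU, uc_of_dual_us (us_of_AT (dual_AT hA hU hr)), hr⟩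

end Pool.Agent.J6H26.MM
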