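import Pool.Agent.J6H26.MM.Op
import Pool.Agent.J6H26.MM.Pl

/-!
# Two different weakly null sequences

If there are two normalized weakly null sequences with different limit functions, then the norm of
every weak limit of isometries is constant on the sphere, and the norm is Hilbertian.
-/

set_option autoImplicit false
set_option linter.unusedVariables false
set_option linter.unusedSectionVars false

namespace Pool.Agent.J6H26.MM

open Filter Topology Pool.Agent.N314.OP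

variable {E : Type*} [NormedAddCommGroup E] [NormedSpace ℝ E]

/-- the norms of the weak limits are constant on spheres -/
structure PC (g : ℕ → E ≃ₗᵢ[ℝ] E) (R R' : E →L[ℝ] E) (r r' : ℝ) : Prop where
  p : Pr g R R'
  c : ∀ u, ‖R u‖ = r * ‖u‖
  c' : ∀ u, ‖R' u‖ = r' * ‖u‖

section

variable {e : E} {g : ℕ → E ≃ₗᵢ[ℝ] E} {R R' : E →L[ℝ] E} {r r' : ℝ}

lemma PC.symm (h : PC g R R' r r') : PC (fun n => (g n).symm) R' R r' r :=
  ⟨h.p.symm, h.c', h.c⟩

lemma norm_const {R : E →L[ℝ] E} {e : E} (he : ‖e‖ = 1)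
    (h : ∀ z z' : E, ‖z‖ = 1 → ‖z'‖ = 1 → ‖R z‖ = ‖R z'‖) (u : E) :
    ‖R u‖ = ‖R e‖ * ‖u‖ := by
  rcases eq_or_ne u 0 with rfl | hu
  · simp
  have hn : 0 < ‖u‖ := norm_pos_iff.2 hu
  have h1 := h (‖u‖⁻¹ • u) e
    (by rw [norm_smul, norm_inv, norm_norm, inv_mul_cancel₀ hn.ne']) he
  rw [map_smul, norm_smul, norm_inv, norm_norm] at h1
  rw [← h1]
  field_simp

/-- two normalized weakly null sequences with different limit functions -/
def Dif (e : E) : Prop :=
  ∃ (κ₁ κ₂ : ℕ → E) (a : ℝ), Nz e κ₁ ∧ Nz e κ₂ ∧ 0 ≤ a ∧ Nf e κ₁ a ≠ Nf e κ₂ a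

lemma Dif.const (hd : Dif e) (hm : MU E) (hc : UC E) (he : ‖e‖ = 1) (h : Pr g R R') (z z' : E)
    (hz : ‖z‖ = 1) (hz' : ‖z'‖ = 1) : ‖R' z‖ = ‖R' z'‖ := by
  obtain ⟨κ₁, κ₂, a, h1, h2, ha, hne⟩ := hd
  rcases lt_trichotomy ‖R' z‖ ‖R' z'‖ with hlt | heq | hlt
  · exact absurd (dicho hm hc he h hz hz' hlt h1 h2 ha) hne
  · exact heq
  · exact absurd (dicho hm hc he h hz' hz hlt h1 h2 ha) hne

lemma Dif.pc (hd : Dif e) (hm : MU E) (hc : UC E) (he : ‖e‖ = 1) (h : Pr g R R') :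
    PC g R R' ‖R e‖ ‖R' e‖ :=
  ⟨h, norm_const he (hd.const hm hc he h.symm), norm_const he (hd.const hm hc he h)⟩

lemma r_zero (hm : MU E) (hc : UC E) (he : ‖e‖ = 1) (h : PC g R R' r r') (h0 : r' = 0) :
    r = 0 := by
  have hR' : ∀ u, R' u = 0 := fun u => by
    rw [← norm_eq_zero, h.c', h0, zero_mul]
  have e1 := g1 hm he h.p e (R e)
  have e2 := g1 hm he h.p e (-(R e))
  rw [nn_neg hm he h.p.symm, hR', neg_add_cancel, norm_zero] at e2
  rw [hR'] at e1
  rw [← e1] at e2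
  have e3 := nf_inj hm hc he (h.p.bd e) (h.p.l e) le_rfl (norm_nonneg _) e2
  have e4 : R e + R e = (2 : ℝ) • R e := (two_smul ℝ _).symm
  rw [e4, norm_smul, h.c, he, mul_one, Real.norm_of_nonneg (by norm_num : (0 : ℝ) ≤ 2)] at e3
  linarith

lemma nf_lip_t {κ : ℕ → E} {C : ℝ} (hC : ∀ n, ‖κ n‖ ≤ C) (s t a : ℝ) :
    |Nf e (fun n => s • κ n) a - Nf e (fun n => t • κ n) a| ≤ |s - t| * C := by
  have hb : Bd κ := ⟨C, hC⟩
  have h1 := ((nf_t' (e := e) (hb.smul s) a).sub (nf_t' (e := e) (hb.smul t) a)).abs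
  refine le_of_tendsto' h1 fun n => ?_
  refine (abs_norm_sub_norm_le _ _).trans ?_
  have h2 : a • e + s • κ n - (a • e + t • κ n) = (s - t) • κ n := by rw [sub_smul]; abel
  rw [h2, norm_smul, Real.norm_eq_abs]
  have := hC n
  gcongr

lemma nf_cont_t {κ : ℕ → E} (hb : Bd κ) (a : ℝ) :
    Continuous fun t : ℝ => Nf e (fun n => t • κ n) a := by
  obtain ⟨C, hC⟩ := hb
  have hC0 : 0 ≤ C := (norm_nonneg _).trans (hC 0)
  have : LipschitzWith ⟨C, hC0⟩ (fun t : ℝ => Nf e (fun n => t • κ n) a) :=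
    LipschitzWith.of_dist_le_mul fun s t => by
      rw [Real.dist_eq, Real.dist_eq, mul_comm]
      exact nf_lip_t hC s t a
  exact this.continuous

lemma nf_zs {κ : ℕ → E} (he : ‖e‖ = 1) (a : ℝ) : Nf e (fun n => (0 : ℝ) • κ n) a = |a| := by
  refine ul_eq (tendsto_const_nhds.congr fun n => ?_)
  show |a| = ‖a • e + (0 : ℝ) • κ n‖
  rw [zero_smul, add_zero, norm_smul, he, mul_one, Real.norm_eq_abs]

/-- every value is attained -/
lemma exists_t (hm : MU E) (he : ‖e‖ = 1) {κ : ℕ → E} (h : Nz e κ) {a A : ℝ} (ha : 0 ≤ a)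
    (hA : a ≤ A) : ∃ t : ℝ, 0 ≤ t ∧ t ≤ A ∧ Nf e (fun n => t • κ n) a = A := by
  have hA0 : 0 ≤ A := ha.trans hA
  have h1 : A ≤ Nf e (fun n => A • κ n) a := by
    have h2 := nf_zero_le hm (h.b.smul A) (h.w.smul A) (e := e) a
    have h3 := nf_smul (e := e) h.b hA0 0
    rw [mul_zero, h.o, mul_one] at h3
    rw [h3] at h2
    exact h2
  obtain ⟨t, ht, h2⟩ := intermediate_value_Icc hA0 (nf_cont_t (e := e) h.b a).continuousOn
    (show A ∈ Set.Icc (Nf e (fun n => (0 : ℝ) • κ n) a) (Nf e (fun n => A • κ n) a) from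
      ⟨by rw [nf_zs he, abs_of_nonneg ha]; exact hA, h1⟩)
  exact ⟨t, ht.1, ht.2, h2⟩

lemma PC.nn' (h : PC g R R' r r') (he : ‖e‖ = 1) : 0 ≤ r' := by
  have := h.c' e
  rw [he, mul_one] at this
  rw [← this]; exact norm_nonneg _

lemma nn_same (hm : MU E) (he : ‖e‖ = 1) (h : PC g R R' r r') {κ : ℕ → E} (hκ : Nz e κ)
    {z z' : E} (hz : ‖z‖ = 1) (hz' : ‖z'‖ = 1) {A : ℝ} (hA : r' ≤ A) :
    NN e (fun n => (g n).symm) R' z A = NN e (fun n => (g n).symm) R' z' A := by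
  obtain ⟨t, ht, -, h1⟩ := exists_t hm he hκ (h.nn' he) hA
  have h2 := g2 hm he h.p (hκ.b.smul t) (hκ.w.smul t) (hz.trans hz'.symm)
  rw [h.c', h.c', hz, hz', mul_one, h1] at h2
  exact h2

lemma nf_mono (hm : MU E) (hc : UC E) {w : ℕ → E} (he : ‖e‖ = 1) (hb : Bd w) (hw : UN w)
    {a b : ℝ} (ha : 0 ≤ a) (hab : a ≤ b) : Nf e w a ≤ Nf e w b := by
  rcases hab.eq_or_lt with h | h
  · rw [h]
  · exact (nf_lt hm hc he hb hw ha h).le

/-- **The composition of the two weak limits is a multiple of the identity.** -/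
lemma rr1 (hm : MU E) (hc : UC E) (hs : US E) (he : ‖e‖ = 1) (h : PC g R R' r r')
    {κ : ℕ → E} (hκ : Nz e κ) (hr : 0 < r) (hr' : 0 < r') {x : E} (hx : ‖x‖ = 1) :
    R' (R x) = (r * r') • x := by
  set z : E := r⁻¹ • R x with hz
  have hz1 : ‖z‖ = 1 := by
    rw [hz, norm_smul, norm_inv, Real.norm_of_nonneg hr.le, h.c, hx, mul_one,
      inv_mul_cancel₀ hr.ne']
  have hRz : R x = r • z := by rw [hz, smul_smul, mul_inv_cancel₀ hr.ne', one_smul]
  have hR'z : ‖R' z‖ = r' := by rw [h.c', hz1, mul_one]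
  -- upper slope
  have hup : ∀ η : ℝ, 0 < η → ∃ μ0 : ℝ, 0 < μ0 ∧ ∀ μ, 0 < μ → μ ≤ μ0 →
      NN e (fun n => (g n).symm) R' e (r' + μ) ≤ 1 + μ * (r + η) := by
    intro η hη
    set v : E := r'⁻¹ • R' e with hv
    have hv1 : ‖v‖ = 1 := by
      rw [hv, norm_smul, norm_inv, Real.norm_of_nonneg hr'.le, h.c', he, mul_one,
        inv_mul_cancel₀ hr'.ne']
    have hRv : R' e = r' • v := by rw [hv, smul_smul, mul_inv_cancel₀ hr'.ne', one_smul]
    obtain ⟨A0, hA0, hA⟩ := nf_inf hm hs he (h.p.bd v) (h.p.l v) hη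
    refine ⟨A0⁻¹, by positivity, fun μ hμ hμ1 => ?_⟩
    have e1 := g1 hm he h.p (μ • v) e
    have e2 : μ • v + R' e = (r' + μ) • v := by
      rw [hRv, add_smul, add_comm]
    rw [e2, norm_smul, hv1, mul_one, Real.norm_of_nonneg (by positivity)] at e1
    rw [← e1]
    have hB1 : ‖e + R (μ • v)‖ ≤ 1 + μ * r := by
      refine (norm_add_le _ _).trans ?_
      rw [he, h.c, norm_smul, hv1, mul_one, Real.norm_of_nonneg hμ.le, mul_comm r μ]
    have e3 : NN e g R (μ • v) ‖e + R (μ • v)‖ = μ * NN e g R v (‖e + R (μ • v)‖ / μ) := by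
      have := nn_smul (e := e) h.p hμ.le v (‖e + R (μ • v)‖ / μ)
      rwa [mul_div_cancel₀ _ hμ.ne'] at this
    rw [e3]
    have e4 : NN e g R v (‖e + R (μ • v)‖ / μ) ≤ NN e g R v ((1 + μ * r) / μ) := by
      refine nf_mono hm hc he (h.p.bd v) (h.p.l v) (by positivity) ?_
      gcongr
    have e5 : NN e g R v ((1 + μ * r) / μ) ≤ (1 + μ * r) / μ + η := by
      refine hA _ ?_
      rw [le_div_iff₀ hμ]
      have : A0 * μ ≤ A0 * A0⁻¹ := by gcongr
      rw [mul_inv_cancel₀ hA0.ne'] at this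
      nlinarith [mul_pos hμ hr]
    calc μ * NN e g R v (‖e + R (μ • v)‖ / μ) ≤ μ * ((1 + μ * r) / μ + η) := by
          gcongr; exact e4.trans e5
      _ = 1 + μ * (r + η) := by field_simp; ring
  have hlow : ∀ μ : ℝ, 0 < μ → 1 + μ * r ≤ NN e (fun n => (g n).symm) R' z ‖μ • x + R' z‖ := by
    intro μ hμ
    rw [← g1 hm he h.p (μ • x) z]
    have e1 : z + R (μ • x) = (1 + μ * r) • z := by
      rw [map_smul, hRz, smul_smul, add_smul, one_smul]
    rw [e1, norm_smul, hz1, mul_one, Real.norm_of_nonneg (by positivity)]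
    exact (le_abs_self _).trans (nf_ge he (h.p.bd _) (h.p.l _) _)
  have hself : NN e (fun n => (g n).symm) R' z r' = 1 := by
    have := nn_self hm he h.p.symm z
    rwa [hR'z, hz1] at this
  have hφ : ∀ η : ℝ, 0 < η → r' + r' * (r / (r + η)) ≤ ‖r' • x + R' z‖ := by
    intro η hη
    obtain ⟨μ0, hμ0, h1⟩ := hup η hη
    obtain ⟨μ, hμ, hμ1, hμ2⟩ : ∃ μ : ℝ, 0 < μ ∧ μ ≤ μ0 ∧ μ ≤ r' :=
      ⟨min μ0 r', lt_min hμ0 hr', min_le_left _ _, min_le_right _ _⟩
    have h2 := hlow μ hμ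
    set A := ‖μ • x + R' z‖ with hAdef
    have hA1 : r' < A := by
      by_contra hcon
      push Not at hcon
      have h3 := nf_mono hm hc he (h.p.symm.bd z) (h.p.symm.l z) (norm_nonneg _) hcon
      have h4 : NN e (fun n => (g n).symm) R' z A ≤ NN e (fun n => (g n).symm) R' z r' := h3
      rw [hself] at h4
      nlinarith [mul_pos hμ hr]
    have hA2 : A ≤ μ + r' := by
      refine (norm_add_le _ _).trans ?_
      rw [norm_smul, hx, mul_one, Real.norm_of_nonneg hμ.le, hR'z]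
    have h3 : NN e (fun n => (g n).symm) R' z A ≤ 1 + (A - r') * (r + η) := by
      rw [nn_same hm he h hκ hz1 he hA1.le]
      have := h1 (A - r') (by linarith) (by linarith)
      rwa [add_sub_cancel] at this
    have h4 : μ * r ≤ (A - r') * (r + η) := by linarith
    have h5 : A ≤ μ / r' * ‖r' • x + R' z‖ + (1 - μ / r') * r' := by
      have e1 : μ • x + R' z = (μ / r') • (r' • x + R' z) + (1 - μ / r') • R' z := by
        have : μ / r' * r' = μ := by field_simp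
        rw [smul_add, smul_smul, this, sub_smul, one_smul]; abel
      have e2 : μ / r' ≤ 1 := by rwa [div_le_one hr']
      rw [hAdef, e1]
      refine (norm_add_le _ _).trans ?_
      rw [norm_smul, norm_smul, hR'z, Real.norm_of_nonneg (by positivity),
        Real.norm_of_nonneg (by linarith)]
    have h6 : μ * (r / (r + η)) ≤ A - r' := by
      rw [mul_div_assoc', div_le_iff₀ (by positivity)]
      exact h4
    have h7 : μ / r' * (r' + r' * (r / (r + η))) ≤ μ / r' * ‖r' • x + R' z‖ := by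
      have e1 : μ / r' * (r' + r' * (r / (r + η))) = μ + μ * (r / (r + η)) := by
        field_simp
      have e2 : (1 - μ / r') * r' = r' - μ := by field_simp
      rw [e1]
      rw [e2] at h5
      linarith
    exact le_of_mul_le_mul_left h7 (by positivity)
  have hφ2 : 2 * r' ≤ ‖r' • x + R' z‖ := by
    refine le_of_forall_pos_le_add fun ε hε => ?_
    have h1 := hφ (ε * r / r') (by positivity)
    have h2 : 1 - ε / r' ≤ r / (r + ε * r / r') := by
      rw [le_div_iff₀ (by positivity)]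
      have : (1 - ε / r') * (r + ε * r / r') = r * (1 - (ε / r') ^ 2) := by
        field_simp
        ring
      rw [this]
      nlinarith [sq_nonneg (ε / r')]
    have h3 : r' * (1 - ε / r') ≤ r' * (r / (r + ε * r / r')) := by gcongr
    have h4 : r' * (1 - ε / r') = r' - ε := by field_simp
    linarith
  have hxz : x = r'⁻¹ • R' z := by
    have h1 : ∀ ε : ℝ, 0 < ε → ‖x - r'⁻¹ • R' z‖ ≤ ε := by
      intro ε hε
      obtain ⟨δ, hδ, h2⟩ := hc ε hε
      refine h2 x (r'⁻¹ • R' z) hx.le ?_ ?_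
      · rw [norm_smul, norm_inv, Real.norm_of_nonneg hr'.le, hR'z, inv_mul_cancel₀ hr'.ne']
      · have e1 : x + r'⁻¹ • R' z = r'⁻¹ • (r' • x + R' z) := by
          rw [smul_add, smul_smul, inv_mul_cancel₀ hr'.ne', one_smul]
        rw [e1, norm_smul, norm_inv, Real.norm_of_nonneg hr'.le]
        have : r'⁻¹ * (2 * r') ≤ r'⁻¹ * ‖r' • x + R' z‖ := by gcongr
        have e2 : r'⁻¹ * (2 * r') = 2 := by field_simp
        linarith
    have h2 : ‖x - r'⁻¹ • R' z‖ ≤ 0 := le_of_forall_pos_le_add fun ε hε => by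
      have := h1 ε hε; linarith
    exact sub_eq_zero.1 (norm_le_zero_iff.1 h2)
  have hfin : R' z = r' • x := by
    conv_rhs => rw [hxz]
    rw [smul_smul, mul_inv_cancel₀ hr'.ne', one_smul]
  rw [hRz, map_smul, hfin, smul_smul]

lemma rr (hm : MU E) (hc : UC E) (hs : US E) (he : ‖e‖ = 1) (h : PC g R R' r r')
    {κ : ℕ → E} (hκ : Nz e κ) (hr : 0 < r) (hr' : 0 < r') (x : E) :
    R' (R x) = (r * r') • x := by
  rcases eq_or_ne x 0 with rfl | hx
  · simp
  have hn : 0 < ‖x‖ := norm_pos_iff.2 hx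
  have h1 := rr1 hm hc hs he h hκ hr hr' (x := ‖x‖⁻¹ • x)
    (by rw [norm_smul, norm_inv, norm_norm, inv_mul_cancel₀ hn.ne'])
  rw [map_smul, map_smul, smul_comm] at h1
  have h2 := congrArg (fun v => ‖x‖ • v) h1
  simp only [smul_smul, mul_inv_cancel₀ hn.ne', one_smul] at h2
  rw [mul_inv_cancel_left₀ hn.ne'] at h2
  exact h2

/-- **Reduction to multiples of the identity.** -/
lemma exists_h (h : PC g R R' r r') (hr : 0 < r) (hr' : 0 < r')
    (h1 : ∀ x, R' (R x) = (r * r') • x) (h2 : ∀ x, R (R' x) = (r * r') • x) :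
    ∃ k : ℕ → E ≃ₗᵢ[ℝ] E, Pr k (r • ContinuousLinearMap.id ℝ E)
      (r' • ContinuousLinearMap.id ℝ E) := by
  let V0 : E →ₗᵢ[ℝ] E :=
    { toLinearMap := r⁻¹ • (R : E →ₗ[ℝ] E)
      norm_map' := fun u => by
        show ‖r⁻¹ • R u‖ = ‖u‖
        rw [norm_smul, norm_inv, Real.norm_of_nonneg hr.le, h.c, inv_mul_cancel_left₀ hr.ne'] }
  have hV0 : ∀ u, V0 u = r⁻¹ • R u := fun u => rfl
  have hsurj : Function.Surjective V0 := fun y => ⟨r'⁻¹ • R' y, by
    rw [hV0, map_smul, h2, smul_smul, smul_smul]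
    have : r⁻¹ * r'⁻¹ * (r * r') = 1 := by field_simp
    rw [this, one_smul]⟩
  let V := LinearIsometryEquiv.ofSurjective V0 hsurj
  have hV : ∀ u, V u = r⁻¹ • R u := fun u => rfl
  have hle : ∀ u : E, r * ‖u‖ ≤ ‖u‖ := fun u => by rw [← h.c]; exact h.p.n u
  have hle' : ∀ u : E, r' * ‖u‖ ≤ ‖u‖ := fun u => by rw [← h.c']; exact h.p.n' u
  refine ⟨fun n => (g n).trans V.symm, ?_, ?_, ?_, ?_⟩
  · intro u
    have e1 : (fun n => ((g n).trans V.symm) u - (r • ContinuousLinearMap.id ℝ E) u) =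
        fun n => (V.symm : E →L[ℝ] E) (g n u - R u) := by
      funext n
      show V.symm (g n u) - r • u = V.symm (g n u - R u)
      rw [map_sub]
      congr 1
      apply V.injective
      rw [V.apply_symm_apply, map_smul, hV, smul_smul, mul_inv_cancel₀ hr.ne', one_smul]
    rw [e1]
    exact (h.p.l u).map _
  · intro u
    have e1 : (fun n => ((g n).trans V.symm).symm u - (r' • ContinuousLinearMap.id ℝ E) u) =
        fun n => (g n).symm (V u) - R' (V u) := by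
      funext n
      show (g n).symm (V u) - r' • u = (g n).symm (V u) - R' (V u)
      congr 1
      rw [hV, map_smul, h1, smul_smul]
      congr 1
      field_simp
    rw [e1]
    exact h.p.l' _
  · intro u
    show ‖r • u‖ ≤ ‖u‖
    rw [norm_smul, Real.norm_of_nonneg hr.le]
    exact hle u
  · intro u
    show ‖r' • u‖ ≤ ‖u‖
    rw [norm_smul, Real.norm_of_nonneg hr'.le]
    exact hle' u

lemma exists_r (hA : AT E) (hU : UW E) (hm : MU E) (he : ‖e‖ = 1) {κ : ℕ → E} (hκ : Nz e κ)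
    {r : ℝ} (h0 : 0 ≤ r) (h1 : r ≤ 1) : ∃ (g : ℕ → E ≃ₗᵢ[ℝ] E) (R R' : E →L[ℝ] E),
      Pr g R R' ∧ R e = r • e := by
  obtain ⟨c, hc0, hc1, hc2⟩ := exists_t hm he hκ h0 h1
  set y : ℕ → E := fun n => r • e + c • κ n with hy
  have hyt : Tendsto (fun n => ‖y n‖) uu (𝓝 1) := by
    have := nf_t' (e := e) (hκ.b.smul c) r
    rwa [hc2] at this
  have hg : ∀ n : ℕ, ∃ T : E ≃ₗᵢ[ℝ] E,
      y n ≠ 0 → ‖T e - ‖y n‖⁻¹ • y n‖ < 1 / ((n : ℝ) + 1) := by
    intro n
    by_cases h : y n = 0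
    · exact ⟨LinearIsometryEquiv.refl ℝ E, fun hn => absurd h hn⟩
    · obtain ⟨T, hT⟩ := hA e (‖y n‖⁻¹ • y n) he
        (by rw [norm_smul, norm_inv, norm_norm, inv_mul_cancel₀ (norm_ne_zero_iff.2 h)])
        (1 / ((n : ℝ) + 1)) (by positivity)
      exact ⟨T, fun _ => hT⟩
  choose g hg using hg
  obtain ⟨R, R', hP⟩ := exists_pr hU g
  refine ⟨g, R, R', hP, ?_⟩
  refine eq_of_dual fun f => ?_
  have t1 : Tendsto (fun n => f (g n e)) uu (𝓝 (f (R e))) := by
    have := (hP.l e f).add_const (f (R e))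
    rw [zero_add] at this
    refine this.congr fun n => ?_
    rw [map_sub]; ring
  have t2 : Tendsto (fun n => f (g n e)) uu (𝓝 (f (r • e))) := by
    have a1 : Tendsto (fun n => f (y n)) uu (𝓝 (f (r • e))) := by
      have := ((hκ.w.smul c) f).const_add (f (r • e))
      rw [add_zero] at this
      refine this.congr fun n => ?_
      rw [hy]; simp only [map_add]
    have a2 : Tendsto (fun n => ‖y n‖⁻¹ * f (y n)) uu (𝓝 (1⁻¹ * f (r • e))) :=
      (hyt.inv₀ one_ne_zero).mul a1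
    rw [inv_one, one_mul] at a2
    have a3 : Tendsto (fun n => f (g n e - ‖y n‖⁻¹ • y n)) uu (𝓝 0) := by
      have a4 : Tendsto (fun n : ℕ => ‖f‖ * (1 / ((n : ℝ) + 1))) uu (𝓝 0) := by
        have := (tendsto_one_div_add_atTop_nhds_zero_nat (𝕜 := ℝ)).const_mul ‖f‖
        rw [mul_zero] at this
        exact this.mono_left uu_le
      refine squeeze_zero_norm' ?_ a4
      have a5 := hyt.eventually (lt_mem_nhds (show (0 : ℝ) < 1 by norm_num))
      filter_upwards [a5] with n hn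
      refine (f.le_opNorm _).trans ?_
      have := (hg n (norm_pos_iff.1 hn)).le
      gcongr
    have a6 := a3.add a2
    rw [zero_add] at a6
    refine a6.congr fun n => ?_
    rw [map_sub, map_smul, smul_eq_mul]; ring
  exact tendsto_nhds_unique t1 t2

/-- **Sequences of isometries which tend weakly to a multiple of the identity.** -/
lemma exists_sc (hA : AT E) (hU : UW E) (hm : MU E) (hc : UC E) (hs : US E) (he : ‖e‖ = 1)
    {κ : ℕ → E} (hκ : Nz e κ) (hd : Dif e) {r : ℝ} (h0 : 0 < r) (h1 : r < 1) :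
    ∃ (k : ℕ → E ≃ₗᵢ[ℝ] E) (r' : ℝ), 0 < r' ∧
      Pr k (r • ContinuousLinearMap.id ℝ E) (r' • ContinuousLinearMap.id ℝ E) := by
  obtain ⟨g, R, R', hP, hR⟩ := exists_r hA hU hm he hκ h0.le h1.le
  have hpc := hd.pc hm hc he hP
  have hRe : ‖R e‖ = r := by rw [hR, norm_smul, he, mul_one, Real.norm_of_nonneg h0.le]
  rw [hRe] at hpc
  have hr' : 0 < ‖R' e‖ := by
    rcases (norm_nonneg (R' e)).eq_or_lt with h | h
    · exact absurd (r_zero hm hc he hpc h.symm) h0.ne'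
    · exact h
  obtain ⟨k, hk⟩ := exists_h hpc h0 hr' (rr hm hc hs he hpc hκ h0 hr') (fun x => by
    rw [rr hm hc hs he hpc.symm hκ hr' h0 x, mul_comm])
  exact ⟨k, _, hr', hk⟩

end

end Pool.Agent.J6H26.MM
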