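import Pool.Agent.J6H26.MM.Refl

/-!
# Limits of norms along weakly null sequences in spaces with property (M)
-/

set_option autoImplicit false
set_option linter.unusedVariables false
set_option linter.unusedSectionVars false

namespace Pool.Agent.J6H26.MM

open Filter Topology Pool.Agent.N314.OP

/-- a nonprincipal ultrafilter -/
noncomputable def uu : Ultrafilter ℕ := hyperfilter ℕ

lemma uu_le : (uu : Filter ℕ) ≤ atTop := by
  have := Nat.hyperfilter_le_atTop
  exact this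

/-- the limit along the ultrafilter -/
noncomputable def ul (f : ℕ → ℝ) : ℝ := limUnder (uu : Filter ℕ) f

lemma ul_spec {f : ℕ → ℝ} {C : ℝ} (h : ∀ n, |f n| ≤ C) : Tendsto f uu (𝓝 (ul f)) := by
  obtain ⟨L, -, hL⟩ := real_ultra h uu
  exact tendsto_nhds_limUnder ⟨L, hL⟩

lemma ul_eq {f : ℕ → ℝ} {L : ℝ} (h : Tendsto f uu (𝓝 L)) : ul f = L := h.limUnder_eq

variable {E : Type*} [NormedAddCommGroup E] [NormedSpace ℝ E]

/-- bounded sequences -/
def Bd (w : ℕ → E) : Prop := ∃ C : ℝ, ∀ n, ‖w n‖ ≤ C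

/-- weakly null along the ultrafilter -/
def UN (w : ℕ → E) : Prop := ∀ f : StrongDual ℝ E, Tendsto (fun n => f (w n)) uu (𝓝 0)

/-- property (M) along the ultrafilter -/
def MU (E : Type*) [NormedAddCommGroup E] [NormedSpace ℝ E] : Prop :=
  ∀ w : ℕ → E, Bd w → UN w → ∀ u v : E, ‖u‖ = ‖v‖ →
    ul (fun n => ‖u + w n‖) = ul (fun n => ‖v + w n‖)

/-- Kalton's property (M) -/
def PM (E : Type*) [NormedAddCommGroup E] [NormedSpace ℝ E] : Prop :=
  ∀ w : ℕ → E, (∀ f : StrongDual ℝ E, Tendsto (fun n => f (w n)) atTop (𝓝 0)) →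
    ∀ u v : E, ‖u‖ = ‖v‖ →
      limsup (fun n => ‖u + w n‖) atTop = limsup (fun n => ‖v + w n‖) atTop

lemma Bd.norm_add {w : ℕ → E} (hb : Bd w) (v : E) : ∃ C : ℝ, ∀ n, |‖v + w n‖| ≤ C := by
  obtain ⟨C, hC⟩ := hb
  refine ⟨‖v‖ + C, fun n => ?_⟩
  rw [abs_norm]
  exact (norm_add_le _ _).trans (by have := hC n; linarith)

lemma Bd.tendsto {w : ℕ → E} (hb : Bd w) (v : E) :
    Tendsto (fun n => ‖v + w n‖) uu (𝓝 (ul fun n => ‖v + w n‖)) := by
  obtain ⟨C, hC⟩ := hb.norm_add v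
  exact ul_spec hC

lemma Bd.smul {w : ℕ → E} (hb : Bd w) (t : ℝ) : Bd (fun n => t • w n) := by
  obtain ⟨C, hC⟩ := hb
  refine ⟨|t| * C, fun n => ?_⟩
  rw [norm_smul, Real.norm_eq_abs]
  have := hC n
  gcongr

lemma Bd.neg {w : ℕ → E} (hb : Bd w) : Bd (fun n => - w n) := by
  obtain ⟨C, hC⟩ := hb
  exact ⟨C, fun n => by rw [norm_neg]; exact hC n⟩

lemma Bd.add {w w' : ℕ → E} (hb : Bd w) (hb' : Bd w') : Bd (fun n => w n + w' n) := by
  obtain ⟨C, hC⟩ := hb
  obtain ⟨C', hC'⟩ := hb'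
  exact ⟨C + C', fun n => (norm_add_le _ _).trans (by linarith [hC n, hC' n])⟩

lemma Bd.map {w : ℕ → E} (hb : Bd w) (R : E →L[ℝ] E) : Bd (fun n => R (w n)) := by
  obtain ⟨C, hC⟩ := hb
  refine ⟨‖R‖ * C, fun n => (R.le_opNorm _).trans ?_⟩
  have := hC n
  gcongr

lemma UN.smul {w : ℕ → E} (hw : UN w) (t : ℝ) : UN (fun n => t • w n) := by
  intro f
  have := (hw f).const_mul t
  simpa only [map_smul, smul_eq_mul, mul_zero] using this

lemma UN.neg {w : ℕ → E} (hw : UN w) : UN (fun n => - w n) := by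
  intro f
  have := (hw f).neg
  simpa only [map_neg, neg_zero] using this

lemma UN.add {w w' : ℕ → E} (hw : UN w) (hw' : UN w') : UN (fun n => w n + w' n) := by
  intro f
  have := (hw f).add (hw' f)
  simpa only [map_add, add_zero] using this

lemma UN.map {w : ℕ → E} (hw : UN w) (R : E →L[ℝ] E) : UN (fun n => R (w n)) := by
  intro f
  exact hw (f.comp R)

/-- property (M) for sequences gives property (M) along ultrafilters -/
theorem mu_of_pm [TopologicalSpace.SeparableSpace (StrongDual ℝ E)] (h : PM E) : MU E := by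
  intro w hb hw u v huv
  have hd := TopologicalSpace.denseRange_denseSeq (StrongDual ℝ E)
  set F := TopologicalSpace.denseSeq (StrongDual ℝ E) with hF
  have h1 := hb.tendsto u
  have h2 := hb.tendsto v
  set Lu := ul fun n => ‖u + w n‖ with hLu
  set Lv := ul fun n => ‖v + w n‖ with hLv
  have hsel : ∀ k : ℕ, ∃ n, (∀ j ∈ Finset.range (k + 1), |F j (w n)| < 1 / ((k : ℝ) + 1)) ∧
      |‖u + w n‖ - Lu| < 1 / ((k : ℝ) + 1) ∧ |‖v + w n‖ - Lv| < 1 / ((k : ℝ) + 1) := by
    intro k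
    have hpos : 0 < 1 / ((k : ℝ) + 1) := by positivity
    have e1 : ∀ᶠ n in (uu : Filter ℕ), ∀ j ∈ Finset.range (k + 1),
        |F j (w n)| < 1 / ((k : ℝ) + 1) := by
      rw [Finset.eventually_all]
      intro j _
      have := (Metric.tendsto_nhds.1 (hw (F j))) _ hpos
      simpa [Real.dist_eq] using this
    have e2 := (Metric.tendsto_nhds.1 h1) _ hpos
    have e3 := (Metric.tendsto_nhds.1 h2) _ hpos
    obtain ⟨n, hn1, hn2, hn3⟩ := (e1.and (e2.and e3)).exists
    exact ⟨n, hn1, by simpa [Real.dist_eq] using hn2, by simpa [Real.dist_eq] using hn3⟩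
  choose n hn1 hn2 hn3 using hsel
  have hlim : Tendsto (fun k : ℕ => 1 / ((k : ℝ) + 1)) atTop (𝓝 0) :=
    tendsto_one_div_add_atTop_nhds_zero_nat
  obtain ⟨C, hC⟩ := hb
  have hy : ∀ f : StrongDual ℝ E, Tendsto (fun k => f (w (n k))) atTop (𝓝 0) := by
    intro f
    rw [Metric.tendsto_atTop]
    intro ε hε
    have hC0 : 0 ≤ C := (norm_nonneg _).trans (hC 0)
    obtain ⟨j, hj⟩ := Metric.denseRange_iff.1 hd f (ε / (2 * (C + 1))) (by positivity)
    obtain ⟨K, hK⟩ := Metric.tendsto_atTop.1 hlim (ε / 2) (by positivity)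
    refine ⟨max j K, fun k hk => ?_⟩
    have h3 := hn1 k j (Finset.mem_range.2 (by have := le_max_left j K; omega))
    have h4 := hK k ((le_max_right _ _).trans hk)
    rw [Real.dist_eq, sub_zero, abs_of_pos (by positivity)] at h4
    rw [Real.dist_eq, sub_zero]
    have h5 : f (w (n k)) = (f - F j) (w (n k)) + F j (w (n k)) := by
      rw [_root_.sub_apply]; ring
    rw [h5]
    have h6 : |(f - F j) (w (n k))| ≤ ε / (2 * (C + 1)) * C := by
      rw [dist_eq_norm] at hj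
      calc |(f - F j) (w (n k))| ≤ ‖f - F j‖ * ‖w (n k)‖ := (f - F j).le_opNorm _
        _ ≤ ε / (2 * (C + 1)) * C := by gcongr; exact hC _
    have h7 : ε / (2 * (C + 1)) * C ≤ ε / 2 := by
      rw [div_mul_eq_mul_div, div_le_div_iff₀ (by positivity) two_pos]
      nlinarith
    refine (abs_add_le _ _).trans_lt ?_
    linarith
  have key := h (fun k => w (n k)) hy u v huv
  have h3 : Tendsto (fun k => ‖u + w (n k)‖) atTop (𝓝 Lu) := by
    rw [tendsto_iff_dist_tendsto_zero]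
    refine squeeze_zero (fun _ => dist_nonneg) (fun k => ?_) hlim
    rw [Real.dist_eq]; exact (hn2 k).le
  have h4 : Tendsto (fun k => ‖v + w (n k)‖) atTop (𝓝 Lv) := by
    rw [tendsto_iff_dist_tendsto_zero]
    refine squeeze_zero (fun _ => dist_nonneg) (fun k => ?_) hlim
    rw [Real.dist_eq]; exact (hn3 k).le
  rw [h3.limsup_eq, h4.limsup_eq] at key
  exact key

/-- the limit of `‖a e + w n‖` -/
noncomputable def Nf (e : E) (w : ℕ → E) (a : ℝ) : ℝ := ul fun n => ‖a • e + w n‖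

section

variable {e : E} {w : ℕ → E}

lemma nf_t' (hb : Bd w) (a : ℝ) : Tendsto (fun n => ‖a • e + w n‖) uu (𝓝 (Nf e w a)) :=
  hb.tendsto (a • e)

lemma nf_t (hm : MU E) (he : ‖e‖ = 1) (hb : Bd w) (hw : UN w) (v : E) :
    Tendsto (fun n => ‖v + w n‖) uu (𝓝 (Nf e w ‖v‖)) := by
  have h1 : ul (fun n => ‖v + w n‖) = Nf e w ‖v‖ :=
    hm w hb hw _ _ (by rw [norm_smul, he, mul_one, norm_norm])
  rw [← h1]
  exact hb.tendsto v

lemma nf_nonneg (hb : Bd w) (a : ℝ) : 0 ≤ Nf e w a :=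
  ge_of_tendsto' (nf_t' hb a) fun n => norm_nonneg _

lemma nf_lip (he : ‖e‖ = 1) (hb : Bd w) (a b : ℝ) : |Nf e w a - Nf e w b| ≤ |a - b| := by
  have h1 := ((nf_t' (e := e) hb a).sub (nf_t' (e := e) hb b)).abs
  refine le_of_tendsto' h1 fun n => ?_
  refine (abs_norm_sub_norm_le _ _).trans ?_
  have : a • e + w n - (b • e + w n) = (a - b) • e := by rw [sub_smul]; abel
  rw [this, norm_smul, he, mul_one, Real.norm_eq_abs]

lemma nf_cont (he : ‖e‖ = 1) (hb : Bd w) : Continuous (Nf e w) := by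
  have : LipschitzWith 1 (Nf e w) := LipschitzWith.of_dist_le_mul fun a b => by
    rw [Real.dist_eq, Real.dist_eq, NNReal.coe_one, one_mul]
    exact nf_lip he hb a b
  exact this.continuous

lemma nf_neg (hm : MU E) (hb : Bd w) (hw : UN w) (a : ℝ) : Nf e w (-a) = Nf e w a :=
  hm w hb hw _ _ (by rw [norm_smul, norm_smul, norm_neg])

lemma nf_abs (hm : MU E) (hb : Bd w) (hw : UN w) (a : ℝ) : Nf e w |a| = Nf e w a := by
  rcases abs_choice a with h | h <;> rw [h]
  exact nf_neg hm hb hw a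

lemma nf_conv (hb : Bd w) {s a b : ℝ} (h0 : 0 ≤ s) (h1 : s ≤ 1) :
    Nf e w (s * a + (1 - s) * b) ≤ s * Nf e w a + (1 - s) * Nf e w b := by
  have h2 := ((nf_t' (e := e) hb a).const_mul s).add ((nf_t' (e := e) hb b).const_mul (1 - s))
  refine le_of_tendsto_of_tendsto' (nf_t' hb _) h2 fun n => ?_
  have h3 : (s * a + (1 - s) * b) • e + w n = s • (a • e + w n) + (1 - s) • (b • e + w n) := by
    module
  rw [h3]
  refine (norm_add_le _ _).trans ?_
  rw [norm_smul, norm_smul, Real.norm_of_nonneg h0, Real.norm_of_nonneg (by linarith)]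

lemma nf_zero_le (hm : MU E) (hb : Bd w) (hw : UN w) (a : ℝ) : Nf e w 0 ≤ Nf e w a := by
  have h1 := nf_conv (e := e) hb (s := 1 / 2) (a := a) (b := -a) (by norm_num) (by norm_num)
  rw [nf_neg hm hb hw] at h1
  have h2 : (1 / 2 : ℝ) * a + (1 - 1 / 2) * -a = 0 := by ring
  rw [h2] at h1
  linarith

lemma nf_ge (he : ‖e‖ = 1) (hb : Bd w) (hw : UN w) (a : ℝ) : |a| ≤ Nf e w a := by
  rcases eq_or_ne (a • e) 0 with h0 | h0
  · have : |a| = 0 := by
      have := congrArg norm h0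
      rwa [norm_smul, he, mul_one, norm_zero, Real.norm_eq_abs] at this
    rw [this]
    exact nf_nonneg hb a
  obtain ⟨f, hf, hfv⟩ := exists_dual_vector ℝ (a • e) (norm_ne_zero_iff.2 h0)
  have hfv' : f (a • e) = |a| := by
    have : f (a • e) = ‖a • e‖ := by simpa using hfv
    rw [this, norm_smul, he, mul_one, Real.norm_eq_abs]
  have h1 := (hw f).const_add (f (a • e))
  rw [add_zero, hfv'] at h1
  refine le_of_tendsto_of_tendsto' h1 (nf_t' hb a) fun n => ?_
  have h2 : |a| + f (w n) = f (a • e + w n) := by rw [map_add, hfv']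
  rw [h2]
  have := f.le_of_opNorm_le hf.le (a • e + w n)
  rw [one_mul] at this
  exact (le_abs_self _).trans this

lemma nf_le (he : ‖e‖ = 1) (hb : Bd w) (a : ℝ) : Nf e w a ≤ |a| + Nf e w 0 := by
  have := nf_lip he hb a 0
  rw [sub_zero] at this
  have := (le_abs_self _).trans this
  linarith

lemma nf_negw (hm : MU E) (he : ‖e‖ = 1) (hb : Bd w) (hw : UN w) (a : ℝ) :
    Nf e (fun n => - w n) a = Nf e w a := by
  refine ul_eq ?_
  have h1 := nf_t hm he hb hw (-(a • e))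
  have h2 : ‖-(a • e)‖ = |a| := by rw [norm_neg, norm_smul, he, mul_one, Real.norm_eq_abs]
  rw [h2, nf_abs hm hb hw] at h1
  refine h1.congr fun n => ?_
  have h3 : a • e + -w n = -(-(a • e) + w n) := by abel
  rw [h3, norm_neg]

lemma nf_smul (hb : Bd w) {t : ℝ} (ht : 0 ≤ t) (a : ℝ) :
    Nf e (fun n => t • w n) (t * a) = t * Nf e w a := by
  refine ul_eq ?_
  refine ((nf_t' (e := e) hb a).const_mul t).congr fun n => ?_
  rw [mul_smul, ← smul_add, norm_smul, Real.norm_of_nonneg ht]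

/-- **Strict monotonicity.** -/
lemma nf_lt0 (hm : MU E) (hc : UC E) (he : ‖e‖ = 1) (hb : Bd w) (hw : UN w) {b : ℝ}
    (hb0 : 0 < b) : Nf e w 0 < Nf e w b := by
  refine lt_of_le_of_ne (nf_zero_le hm hb hw b) fun heq => ?_
  set L := Nf e w b with hL
  have hLb : b ≤ L := (le_abs_self b).trans (nf_ge he hb hw b)
  have hL0 : 0 < L := by linarith
  obtain ⟨δ, hδ, h1⟩ := hc (b / L) (by positivity)
  -- use the points divided by `L (1 + η)`
  obtain ⟨η, hη, hη1, hη2⟩ : ∃ η : ℝ, 0 < η ∧ η ≤ 1 / 2 ∧ 2 - δ < 2 * (1 - η) / (1 + η) := by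
    refine ⟨min (δ / 8) (1 / 2), by positivity, min_le_right _ _, ?_⟩
    set η := min (δ / 8) (1 / 2) with hη
    have h2 : η ≤ δ / 8 := min_le_left _ _
    have h3 : 0 < η := by positivity
    have h4 : η ≤ 1 / 2 := min_le_right _ _
    rw [lt_div_iff₀ (by linarith)]
    nlinarith
  have t1 : Tendsto (fun n => ‖b • e + w n‖) uu (𝓝 L) := nf_t' hb b
  have t2 : Tendsto (fun n => ‖(-b) • e + w n‖) uu (𝓝 L) := by
    have := nf_t' (e := e) hb (-b)
    rwa [nf_neg hm hb hw] at this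
  have t3 : Tendsto (fun n => ‖w n‖) uu (𝓝 L) := by
    have := nf_t' (e := e) hb 0
    rw [heq] at this
    refine this.congr fun n => ?_
    rw [zero_smul, zero_add]
  have e1 := t1.eventually (gt_mem_nhds (show L < L * (1 + η) by nlinarith))
  have e2 := t2.eventually (gt_mem_nhds (show L < L * (1 + η) by nlinarith))
  have e3 := t3.eventually (lt_mem_nhds (show L * (1 - η) < L by nlinarith))
  obtain ⟨n, hn1, hn2, hn3⟩ := (e1.and (e2.and e3)).exists
  have hq : 0 < L * (1 + η) := by positivity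
  have h2 := h1 ((L * (1 + η))⁻¹ • (b • e + w n)) ((L * (1 + η))⁻¹ • ((-b) • e + w n))
    (by rw [norm_smul, norm_inv, Real.norm_of_nonneg hq.le, inv_mul_le_iff₀ hq]; linarith)
    (by rw [norm_smul, norm_inv, Real.norm_of_nonneg hq.le, inv_mul_le_iff₀ hq]; linarith)
    (by
      have h3 : (L * (1 + η))⁻¹ • (b • e + w n) + (L * (1 + η))⁻¹ • ((-b) • e + w n) =
          (2 * (L * (1 + η))⁻¹) • w n := by module
      rw [h3, norm_smul, Real.norm_of_nonneg (by positivity)]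
      have h4 : 2 * (1 - η) / (1 + η) = 2 * (L * (1 + η))⁻¹ * (L * (1 - η)) := by
        field_simp
      rw [h4] at hη2
      refine hη2.le.trans ?_
      gcongr)
  have h3 : (L * (1 + η))⁻¹ • (b • e + w n) - (L * (1 + η))⁻¹ • ((-b) • e + w n) =
      (2 * b * (L * (1 + η))⁻¹) • e := by module
  rw [h3, norm_smul, he, mul_one, Real.norm_of_nonneg (by positivity)] at h2
  rw [← div_eq_mul_inv, div_le_div_iff₀ hq hL0] at h2
  nlinarith [mul_pos hb0 hL0]

lemma nf_lt (hm : MU E) (hc : UC E) (he : ‖e‖ = 1) (hb : Bd w) (hw : UN w) {a b : ℝ}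
    (ha : 0 ≤ a) (hab : a < b) : Nf e w a < Nf e w b := by
  have hb0 : 0 < b := by linarith
  have h0 := nf_lt0 hm hc he hb hw hb0
  have h1 := nf_conv (e := e) hb (s := a / b) (a := b) (b := 0) (by positivity)
    (by rw [div_le_one hb0]; exact hab.le)
  have h2 : a / b * b + (1 - a / b) * 0 = a := by field_simp; ring
  rw [h2] at h1
  have h3 : a / b < 1 := by rw [div_lt_one hb0]; exact hab
  have h4 : 0 ≤ a / b := by positivity
  nlinarith

lemma nf_le_iff (hm : MU E) (hc : UC E) (he : ‖e‖ = 1) (hb : Bd w) (hw : UN w) {a b : ℝ}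
    (ha : 0 ≤ a) (hb0 : 0 ≤ b) (h : Nf e w a ≤ Nf e w b) : a ≤ b := by
  by_contra hcon
  push Not at hcon
  exact absurd (nf_lt hm hc he hb hw hb0 hcon) (not_lt.2 h)

lemma nf_inj (hm : MU E) (hc : UC E) (he : ‖e‖ = 1) (hb : Bd w) (hw : UN w) {a b : ℝ}
    (ha : 0 ≤ a) (hb0 : 0 ≤ b) (h : Nf e w a = Nf e w b) : a = b :=
  le_antisymm (nf_le_iff hm hc he hb hw ha hb0 h.le) (nf_le_iff hm hc he hb hw hb0 ha h.ge)

/-- **Behaviour at infinity.** -/
lemma nf_inf (hm : MU E) (hs : US E) (he : ‖e‖ = 1) (hb : Bd w) (hw : UN w) {η : ℝ}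
    (hη : 0 < η) : ∃ A0 : ℝ, 0 < A0 ∧ ∀ A, A0 ≤ A → Nf e w A ≤ A + η := by
  obtain ⟨C, hC⟩ := hb
  have hb : Bd w := ⟨C, hC⟩
  have hC0 : 0 ≤ C := (norm_nonneg _).trans (hC 0)
  obtain ⟨δ, hδ, h1⟩ := hs (η / (C + 1)) (by positivity)
  refine ⟨(C + 1) / δ, by positivity, fun A hA => ?_⟩
  have hA0 : 0 < A := lt_of_lt_of_le (by positivity) hA
  have h2 : Nf e w A + Nf e w A ≤ 2 * A + η := by
    have t1 := nf_t' (e := e) hb A
    have t2 := nf_t' (e := e) hb.neg A
    rw [nf_negw hm he hb hw] at t2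
    refine le_of_tendsto' (t1.add t2) fun n => ?_
    have h3 := h1 e (A⁻¹ • w n) he (by
      rw [norm_smul, norm_inv, Real.norm_of_nonneg hA0.le, inv_mul_le_iff₀ hA0]
      have h4 : C + 1 ≤ A * δ := by
        rwa [div_le_iff₀ hδ] at hA
      have := hC n
      linarith)
    have e1 : A • e + w n = A • (e + A⁻¹ • w n) := by
      rw [smul_add, smul_smul, mul_inv_cancel₀ hA0.ne', one_smul]
    have e2 : A • e + -w n = A • (e - A⁻¹ • w n) := by
      rw [smul_sub, smul_smul, mul_inv_cancel₀ hA0.ne', one_smul]; abel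
    rw [e1, e2, norm_smul, norm_smul, Real.norm_of_nonneg hA0.le, ← mul_add]
    rw [norm_smul, norm_inv, Real.norm_of_nonneg hA0.le] at h3
    calc A * (‖e + A⁻¹ • w n‖ + ‖e - A⁻¹ • w n‖)
        ≤ A * (2 + η / (C + 1) * (A⁻¹ * ‖w n‖)) := by gcongr
      _ = 2 * A + η / (C + 1) * ‖w n‖ := by field_simp
      _ ≤ 2 * A + η / (C + 1) * (C + 1) := by
        have := hC n
        gcongr
        linarith
      _ = 2 * A + η := by field_simp
  linarith

end

end Pool.Agent.J6H26.MM
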