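import Pool.Agent.N314.OP.Wsc

/-!
# Uniform smoothness and uniform convexity of almost transitive spaces

A Banach space with dense orbits and separable dual is uniformly smooth: by Baire's theorem there
is a ball on which norming functionals can be chosen within `ε` of each other.
-/

set_option autoImplicit false

namespace Pool.Agent.J6H26.MM

open Filter Topology Pool.Agent.N314.OP

variable {X : Type*} [NormedAddCommGroup X] [NormedSpace ℝ X]

/-- dense orbits under linear isometries -/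
def ATl (X : Type*) [NormedAddCommGroup X] [NormedSpace ℝ X] : Prop :=
  ∀ x y : X, ‖x‖ = 1 → ‖y‖ = 1 → ∀ ε : ℝ, 0 < ε → ∃ T : X →ₗᵢ[ℝ] X, ‖T x - y‖ < ε

/-- uniform smoothness -/
def US (X : Type*) [NormedAddCommGroup X] [NormedSpace ℝ X] : Prop :=
  ∀ ε : ℝ, 0 < ε → ∃ δ : ℝ, 0 < δ ∧ ∀ x h : X, ‖x‖ = 1 → ‖h‖ ≤ δ →
    ‖x + h‖ + ‖x - h‖ ≤ 2 + ε * ‖h‖

/-- uniform convexity -/
def UC (X : Type*) [NormedAddCommGroup X] [NormedSpace ℝ X] : Prop :=
  ∀ ε : ℝ, 0 < ε → ∃ δ : ℝ, 0 < δ ∧ ∀ x y : X, ‖x‖ ≤ 1 → ‖y‖ ≤ 1 → 2 - δ ≤ ‖x + y‖ →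
    ‖x - y‖ ≤ ε

lemma ATl.of (h : AT X) : ATl X := fun x y hx hy ε hε => by
  obtain ⟨T, hT⟩ := h x y hx hy ε hε
  exact ⟨T.toLinearIsometry, hT⟩

/-- points with a norming functional near `φ` -/
def Nr (φ : StrongDual ℝ X) (ε : ℝ) : Set X :=
  {x | ∃ f : StrongDual ℝ X, ‖f‖ ≤ 1 ∧ f x = ‖x‖ ∧ ‖f - φ‖ ≤ ε}

lemma Nr_closed (φ : StrongDual ℝ X) {ε : ℝ} (hε : 0 ≤ ε) : IsClosed (Nr φ ε) := by
  rw [← isSeqClosed_iff_isClosed]
  intro u x hu hx
  choose f hf1 hf2 hf3 using hu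
  obtain ⟨L, hL⟩ := exists_limit_functional (E := StrongDual ℝ X) (u := f) (C := 1) hf1
    (hyperfilter ℕ)
  set g : StrongDual ℝ X := L.comp (NormedSpace.inclusionInDoubleDual ℝ X) with hg
  have hgl : ∀ y : X, Tendsto (fun n => f n y) (hyperfilter ℕ) (𝓝 (g y)) := by
    intro y
    have := hL (NormedSpace.inclusionInDoubleDual ℝ X y)
    exact this
  have hle : ((hyperfilter ℕ : Ultrafilter ℕ) : Filter ℕ) ≤ atTop := Nat.hyperfilter_le_atTop
  refine ⟨g, ?_, ?_, ?_⟩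
  · refine g.opNorm_le_bound zero_le_one fun y => ?_
    refine le_of_tendsto' (hgl y).norm fun n => ?_
    exact (f n).le_of_opNorm_le (hf1 n) y
  · refine tendsto_nhds_unique (hgl x) ?_
    have h1 : Tendsto (fun n => ‖u n‖) (hyperfilter ℕ) (𝓝 ‖x‖) := (hx.norm).mono_left hle
    have h2 : Tendsto (fun n => f n (x - u n)) (hyperfilter ℕ) (𝓝 0) := by
      have h3 : Tendsto (fun n => ‖x - u n‖) (hyperfilter ℕ) (𝓝 0) := by
        have := (hx.const_sub x).norm
        rw [sub_self, norm_zero] at this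
        exact this.mono_left hle
      refine squeeze_zero_norm (fun n => ?_) h3
      have := (f n).le_of_opNorm_le (hf1 n) (x - u n)
      rwa [one_mul] at this
    have h4 := h1.add h2
    rw [add_zero] at h4
    refine h4.congr fun n => ?_
    rw [← hf2 n, map_sub]; ring
  · refine (g - φ).opNorm_le_bound hε fun y => ?_
    have h1 : Tendsto (fun n => ‖(f n - φ) y‖) (hyperfilter ℕ) (𝓝 ‖(g - φ) y‖) := by
      have := ((hgl y).sub_const (φ y)).norm
      exact this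
    refine le_of_tendsto' h1 fun n => ?_
    exact (f n - φ).le_of_opNorm_le (hf3 n) y

/-- **Uniform smoothness.** -/
theorem us_of_AT [CompleteSpace X] [TopologicalSpace.SeparableSpace (StrongDual ℝ X)]
    (hX : ATl X) : US X := by
  intro ε hε
  rcases subsingleton_or_nontrivial X with hs | hnt
  · refine ⟨1, one_pos, fun x h hx _ => ?_⟩
    rw [Subsingleton.elim x 0, norm_zero] at hx
    exact absurd hx (by norm_num)
  have hU : ⋃ k : ℕ, Nr (TopologicalSpace.denseSeq (StrongDual ℝ X) k) (ε / 4) =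
      (Set.univ : Set X) := by
    rw [Set.eq_univ_iff_forall]
    intro x
    obtain ⟨f, hf, hfx⟩ := exists_dual_vector'' ℝ x
    have hd := TopologicalSpace.denseRange_denseSeq (StrongDual ℝ X)
    obtain ⟨k, hk⟩ := Metric.denseRange_iff.1 hd f (ε / 4) (by positivity)
    rw [Set.mem_iUnion]
    refine ⟨k, f, hf, by simpa using hfx, ?_⟩
    rw [dist_eq_norm] at hk
    exact hk.le
  obtain ⟨k, x0, hx0⟩ := nonempty_interior_of_iUnion_of_closed
    (fun k => Nr_closed (TopologicalSpace.denseSeq (StrongDual ℝ X) k)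
      (by positivity : (0 : ℝ) ≤ ε / 4)) hU
  set φ := TopologicalSpace.denseSeq (StrongDual ℝ X) k with hφ
  obtain ⟨ρ, hρ, hball⟩ := Metric.isOpen_iff.1 isOpen_interior x0 hx0
  -- a nonzero centre
  obtain ⟨x1, ρ1, hx1, hρ1, hball1⟩ : ∃ (x1 : X) (ρ1 : ℝ), x1 ≠ 0 ∧ 0 < ρ1 ∧
      Metric.ball x1 ρ1 ⊆ Nr φ (ε / 4) := by
    by_cases h0 : x0 = 0
    · obtain ⟨e, he⟩ := exists_norm_eq X (by positivity : (0 : ℝ) ≤ ρ / 2)
      refine ⟨e, ρ / 2, ?_, by positivity, fun y hy => ?_⟩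
      · intro h
        rw [h, norm_zero] at he
        linarith
      · apply interior_subset
        apply hball
        rw [Metric.mem_ball, dist_eq_norm] at hy ⊢
        rw [h0, sub_zero]
        have : y = (y - e) + e := by abel
        rw [this]
        exact (norm_add_le _ _).trans_lt (by linarith)
    · exact ⟨x0, ρ, h0, hρ, hball.trans interior_subset⟩
  have hn : 0 < ‖x1‖ := norm_pos_iff.2 hx1
  set e : X := ‖x1‖⁻¹ • x1 with he
  have he1 : ‖e‖ = 1 := by rw [he, norm_smul, norm_inv, norm_norm, inv_mul_cancel₀ hn.ne']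
  have hex : ‖x1‖ • e = x1 := by rw [he, smul_smul, mul_inv_cancel₀ hn.ne', one_smul]
  have hNr : ∀ y : X, ‖y - e‖ < ρ1 / ‖x1‖ → y ∈ Nr φ (ε / 4) := by
    intro y hy
    have h1 : ‖x1‖ • y ∈ Nr φ (ε / 4) := by
      apply hball1
      rw [Metric.mem_ball, dist_eq_norm]
      have h2 : ‖x1‖ • y - x1 = ‖x1‖ • (y - e) := by rw [smul_sub, hex]
      rw [h2, norm_smul, norm_norm]
      calc ‖x1‖ * ‖y - e‖ < ‖x1‖ * (ρ1 / ‖x1‖) := by gcongr
        _ = ρ1 := by field_simp
    obtain ⟨f, hf1, hf2, hf3⟩ := h1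
    refine ⟨f, hf1, ?_, hf3⟩
    rw [map_smul, norm_smul, norm_norm, smul_eq_mul] at hf2
    exact mul_left_cancel₀ hn.ne' hf2
  have hmain : ∀ h : X, ‖h‖ < ρ1 / ‖x1‖ → ‖e + h‖ + ‖e - h‖ ≤ 2 + ε / 2 * ‖h‖ := by
    intro h hh
    obtain ⟨f, hf1, hf2, hf3⟩ := hNr (e + h) (by rwa [add_sub_cancel_left])
    obtain ⟨g, hg1, hg2, hg3⟩ := hNr (e - h) (by
      have : e - h - e = -h := by abel
      rwa [this, norm_neg])
    rw [← hf2, ← hg2, map_add, map_sub]
    have h1 : f e ≤ 1 := by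
      have := f.le_of_opNorm_le hf1 e
      rw [he1, one_mul] at this
      exact (le_abs_self _).trans this
    have h2 : g e ≤ 1 := by
      have := g.le_of_opNorm_le hg1 e
      rw [he1, one_mul] at this
      exact (le_abs_self _).trans this
    have h3 : (f - g) h ≤ ε / 2 * ‖h‖ := by
      have h4 : ‖f - g‖ ≤ ε / 2 := by
        have : f - g = (f - φ) - (g - φ) := by abel
        rw [this]
        exact (norm_sub_le _ _).trans (by linarith)
      exact (le_abs_self _).trans ((f - g).le_of_opNorm_le h4 h)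
    have h5 : (f - g) h = f h - g h := rfl
    linarith
  refine ⟨ρ1 / ‖x1‖ / 2, by positivity, fun x h hx hh => ?_⟩
  have hpos : 0 < ρ1 / ‖x1‖ := by positivity
  refine le_of_forall_pos_le_add fun η hη => ?_
  obtain ⟨T, hT⟩ := hX x e hx he1 (η / 2) (by positivity)
  have h1 := hmain (T h) (by rw [T.norm_map]; linarith)
  have h2 : ‖x + h‖ ≤ ‖e + T h‖ + η / 2 := by
    have e1 : ‖x + h‖ = ‖T x + T h‖ := by rw [← map_add, T.norm_map]
    have e2 : T x + T h = (e + T h) + (T x - e) := by abel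
    rw [e1, e2]
    exact (norm_add_le _ _).trans (by linarith)
  have h3 : ‖x - h‖ ≤ ‖e - T h‖ + η / 2 := by
    have e1 : ‖x - h‖ = ‖T x - T h‖ := by rw [← map_sub, T.norm_map]
    have e2 : T x - T h = (e - T h) + (T x - e) := by abel
    rw [e1, e2]
    exact (norm_add_le _ _).trans (by linarith)
  rw [T.norm_map] at h1
  have h4 : ε / 2 * ‖h‖ ≤ ε * ‖h‖ := by
    have := norm_nonneg h
    nlinarith
  linarith

/-- uniformly smooth spaces: functionals which norm nearby points are close -/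
lemma US.near (h : US X) {ε : ℝ} (hε : 0 < ε) : ∃ δ : ℝ, 0 < δ ∧ ∀ (f g : StrongDual ℝ X)
    (x y : X), ‖f‖ ≤ 1 → ‖g‖ ≤ 1 → ‖x‖ = 1 → f x = 1 → g y = 1 → ‖x - y‖ ≤ δ →
    ‖f - g‖ ≤ ε := by
  obtain ⟨δ, hδ, h1⟩ := h (ε / 2) (by positivity)
  refine ⟨ε / 2 * δ, by positivity, fun f g x y hf hg hx hfx hgy hxy => ?_⟩
  have key : ∀ v : X, ‖v‖ = δ → (f - g) v ≤ ε * δ := by
    intro v hv
    have h2 := h1 x v hx hv.le
    have h3 : f (x + v) ≤ ‖x + v‖ := by
      have := f.le_of_opNorm_le hf (x + v)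
      rw [one_mul] at this
      exact (le_abs_self _).trans this
    have h4 : g (x - v) ≤ ‖x - v‖ := by
      have := g.le_of_opNorm_le hg (x - v)
      rw [one_mul] at this
      exact (le_abs_self _).trans this
    have h5 : 1 - g x ≤ ‖x - y‖ := by
      have h6 : 1 - g x = g (y - x) := by rw [map_sub, hgy]
      rw [h6, norm_sub_rev]
      have := g.le_of_opNorm_le hg (y - x)
      rw [one_mul] at this
      exact (le_abs_self _).trans this
    rw [map_add, hfx] at h3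
    rw [map_sub] at h4
    rw [hv] at h2
    have h7 : (f - g) v = f v - g v := rfl
    rw [h7]
    linarith
  refine (f - g).opNorm_le_bound hε.le fun v => ?_
  rcases eq_or_ne v 0 with rfl | hv
  · simp
  have hn : 0 < ‖v‖ := norm_pos_iff.2 hv
  have k1 : ‖(δ / ‖v‖) • v‖ = δ := by
    rw [norm_smul, Real.norm_of_nonneg (by positivity)]
    field_simp
  have k2 := key _ k1
  have k3 := key (-((δ / ‖v‖) • v)) (by rw [norm_neg]; exact k1)
  rw [map_neg] at k3
  rw [map_smul, smul_eq_mul] at k2 k3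
  have k4 : |δ / ‖v‖ * (f - g) v| ≤ ε * δ := abs_le.2 ⟨by linarith, k2⟩
  rw [abs_mul, abs_of_pos (by positivity : (0 : ℝ) < δ / ‖v‖)] at k4
  rw [Real.norm_eq_abs]
  have k5 : |(f - g) v| = ‖v‖ / δ * (δ / ‖v‖ * |(f - g) v|) := by
    field_simp
  rw [k5]
  calc ‖v‖ / δ * (δ / ‖v‖ * |(f - g) v|) ≤ ‖v‖ / δ * (ε * δ) := by gcongr
    _ = ε * ‖v‖ := by field_simp

/-- the dual isometry -/
noncomputable def dI (T : X ≃ₗᵢ[ℝ] X) : StrongDual ℝ X →ₗᵢ[ℝ] StrongDual ℝ X where
  toFun := fun f => f.comp (T.symm : X →L[ℝ] X)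
  map_add' := fun f g => rfl
  map_smul' := fun c f => rfl
  norm_map' := fun f => by
    show ‖f.comp (T.symm : X →L[ℝ] X)‖ = ‖f‖
    exact ContinuousLinearMap.opNorm_comp_linearIsometryEquiv f T.symm

lemma dI_apply (T : X ≃ₗᵢ[ℝ] X) (f : StrongDual ℝ X) (x : X) : dI T f x = f (T.symm x) := rfl

/-- functionals on reflexive spaces attain their norm -/
lemma attains (hr : Function.Surjective (NormedSpace.inclusionInDoubleDual ℝ X))
    (f : StrongDual ℝ X) (hf : ‖f‖ = 1) : ∃ x : X, ‖x‖ = 1 ∧ f x = 1 := by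
  have hf0 : f ≠ 0 := by
    intro h
    rw [h, norm_zero] at hf
    exact zero_ne_one hf
  obtain ⟨L, hL, hLf⟩ := exists_dual_vector ℝ f (norm_ne_zero_iff.2 hf0)
  obtain ⟨x, hx⟩ := hr L
  have h1 : f x = 1 := by
    have : L f = f x := by rw [← hx]; rfl
    rw [← this, hLf, hf]
    simp
  refine ⟨x, ?_, h1⟩
  have h2 : ‖NormedSpace.inclusionInDoubleDual ℝ X x‖ = ‖x‖ :=
    (NormedSpace.inclusionInDoubleDualLi ℝ).norm_map x
  rw [← h2, hx, hL]

/-- the dual of a reflexive uniformly smooth almost transitive space is almost transitive -/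
theorem dual_AT (hA : AT X) (hU : US X)
    (hr : Function.Surjective (NormedSpace.inclusionInDoubleDual ℝ X)) :
    ATl (StrongDual ℝ X) := by
  intro f g hf hg ε hε
  obtain ⟨x, hx, hfx⟩ := attains hr f hf
  obtain ⟨y, hy, hgy⟩ := attains hr g hg
  obtain ⟨δ, hδ, h⟩ := hU.near (half_pos hε)
  obtain ⟨T, hT⟩ := hA x y hx hy δ hδ
  refine ⟨dI T, ?_⟩
  have h1 := h (dI T f) g (T x) y (by rw [(dI T).norm_map, hf]) hg.le
    (by rw [T.norm_map, hx]) (by rw [dI_apply, T.symm_apply_apply, hfx]) hgy hT.le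
  linarith

/-- duality between uniform smoothness and uniform convexity -/
theorem uc_of_dual_us (h : US (StrongDual ℝ X)) : UC X := by
  intro ε hε
  obtain ⟨t0, ht0, h1⟩ := h (ε / 2) (by positivity)
  obtain ⟨t, ht, htt⟩ : ∃ t : ℝ, 0 < t ∧ t ≤ t0 := ⟨t0, ht0, le_rfl⟩
  refine ⟨min (ε / 2 * t) 1, by positivity, fun x y hx hy hxy => ?_⟩
  have hxy1 : 2 - ε / 2 * t ≤ ‖x + y‖ := by
    have := min_le_left (ε / 2 * t) 1
    linarith
  have hxy2 : 1 ≤ ‖x + y‖ := by
    have := min_le_right (ε / 2 * t) 1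
    linarith
  by_contra hcon
  push Not at hcon
  have hne : x - y ≠ 0 := by
    intro h0
    rw [h0, norm_zero] at hcon
    linarith
  have hne' : x + y ≠ 0 := by
    intro h0
    rw [h0, norm_zero] at hxy2
    linarith
  obtain ⟨k, hk, hkv⟩ := exists_dual_vector ℝ (x - y) (norm_ne_zero_iff.2 hne)
  obtain ⟨f, hf, hfv⟩ := exists_dual_vector ℝ (x + y) (norm_ne_zero_iff.2 hne')
  have hkv' : k (x - y) = ‖x - y‖ := by simpa using hkv
  have hfv' : f (x + y) = ‖x + y‖ := by simpa using hfv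
  have h2 := h1 f (t • k) hf (by
    rw [norm_smul, hk, mul_one, Real.norm_of_nonneg ht.le]; exact htt)
  rw [norm_smul, hk, mul_one, Real.norm_of_nonneg ht.le] at h2
  have h3 : (f + t • k) x ≤ ‖f + t • k‖ := by
    calc (f + t • k) x ≤ ‖(f + t • k) x‖ := le_abs_self _
      _ ≤ ‖f + t • k‖ * ‖x‖ := (f + t • k).le_opNorm x
      _ ≤ ‖f + t • k‖ * 1 := by gcongr
      _ = _ := mul_one _
  have h4 : (f - t • k) y ≤ ‖f - t • k‖ := by
    calc (f - t • k) y ≤ ‖(f - t • k) y‖ := le_abs_self _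
      _ ≤ ‖f - t • k‖ * ‖y‖ := (f - t • k).le_opNorm y
      _ ≤ ‖f - t • k‖ * 1 := by gcongr
      _ = _ := mul_one _
  have h5 : (f + t • k) x + (f - t • k) y = f (x + y) + t * k (x - y) := by
    show f x + t • k x + (f y - t • k y) = f (x + y) + t * k (x - y)
    rw [map_add, map_sub, smul_eq_mul, smul_eq_mul]
    ring
  rw [hkv', hfv'] at h5
  nlinarith

end Pool.Agent.J6H26.MM
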